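import Pool.Agent.H33.PI.Fam
import Pool.Graph.R_pool_sql_team_seeded_620a6dc7.H865_iso.Asm

/-!
# Coarsely affine paths are close to smooth paths of local diffeomorphisms

A version of `Pool.Graph.R_pool_sql_team_seeded_620a6dc7.H865_iso.Asm` in which the norms of the functionals may grow
in any way as the scale tends to zero.
-/

set_option autoImplicit false

open Set Filter Topology Metric Function MeasureTheory
open scoped Manifold ContDiff

noncomputable section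

namespace Pool.Agent.H33.PI

open Pool.Agent.Y522 (LD)
open Pool.Agent.H865_small (E Zs kf kf_cont bump_supp Adm Imm imm_smooth Zs_pos q_smooth exists_chartB vol adm_exists)
open Pool.Agent.H865_cl (Ns Gs Gs_smooth exists_retr)
open Pool.Agent.H865_iso (LDIso lin_iso good_low Gs_lin)

theorem iso_main (d m k : ℕ) (M N T : Type) [TopologicalSpace M] [TopologicalSpace N] [TopologicalSpace T]
    [CompactSpace M] [T2Space M] [CompactSpace N] [T2Space N] [CompactSpace T] [PreconnectedSpace T] [Nonempty N]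
    [ChartedSpace (E (d + 1)) M] [ChartedSpace (E (d + 1)) N]
    [IsManifold (𝓡 (d + 1)) ∞ M] [IsManifold (𝓡 (d + 1)) ∞ N]
    (e : M → E m) (he : Continuous e) (hei : Injective e) (heI : ∀ x, Imm (n := d + 1) e x)
    (j : N → E k) (hj : Continuous j) (hji : Injective j) (hjI : ∀ y, Imm (n := d + 1) j y)
    (f : T → M → N) (hf : Continuous fun p : T × M => f p.1 p.2)
    (S : Set ℝ) (hS : ∃ᶠ s in 𝓝[>] (0 : ℝ), s ∈ S) {η0 η : ℝ} (hη0 : 0 < η0) (hηη : η0 < η)
    (hη : η < vol (d + 1) / (2 * vol d))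
    (hrec : ∀ t x, ∃ Λ : ℝ → ℝ, (∀ s, 1 ≤ Λ s) ∧ TG (n := d + 1) e (fun t x => j (f t x)) S η0 Λ t x)
    (t0 t1 : T) (h0 : ∀ x, LD (d + 1) (f t0) x) (h1 : ∀ x, LD (d + 1) (f t1) x) :
    LDIso (d + 1) (f t0) (f t1) := by
  classical
  obtain ⟨π, Ω, hΩ, hjΩ, hπj, hπc, hπs, hπ2⟩ := exists_retr (n := d + 1) hj hji hjI
  obtain ⟨ρ, hρ, hA⟩ := adm_exists (hη0.trans hηη).le hη
  have hee : IsEmbedding e := (he.isClosedEmbedding hei).isEmbedding
  obtain ⟨β, hβe⟩ : ∃ β : E (d + 1) → ℝ, β = fun z => max 0 (1 - ‖z‖) := ⟨_, rfl⟩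
  have hβ : Continuous β := by rw [hβe]; fun_prop
  have hβ0 : ∀ z, 0 ≤ β z := fun z => by rw [hβe]; exact le_max_left _ _
  have hβs : ∀ z, 1 < ‖z‖ → β z = 0 := fun z hz => by rw [hβe]; exact max_eq_left (by linarith)
  have hβp : ∀ z, ‖z‖ < 1 → 0 < β z := fun z hz => by
    rw [hβe]; exact lt_max_of_lt_right (by linarith)
  -- the charts
  choose Bx hBx0 hBxi hBxl using fun x : M => exists_chartB (n := d + 1) x
  have hBo : ∀ x, IsOpen (Bx x '' ball 0 1) := fun x =>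
    Pool.Agent.Y522.isOpen_image_of_LD isOpen_ball fun z _ => hBxl x z
  obtain ⟨t, htK⟩ := (isCompact_univ (X := M)).elim_finite_subcover (fun x => Bx x '' ball 0 1) hBo (by
    intro x _
    exact mem_iUnion.2 ⟨x, 0, by simp, hBx0 x⟩)
  obtain ⟨B, hBe⟩ : ∃ B : t → E (d + 1) → M, B = fun i : t => Bx i.1 := ⟨_, rfl⟩
  have hBi : ∀ i, Injective (B i) := fun i => by rw [hBe]; exact hBxi _
  have hBl : ∀ i z, LD (d + 1) (B i) z := fun i z => by rw [hBe]; exact hBxl _ z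
  have hBc : ∀ i, Continuous (B i) := fun i => continuous_iff_continuousAt.2 fun z => (hBl i z).continuousAt
  have hcov : ∀ x : M, ∃ (i : t) (ζ : E (d + 1)), ‖ζ‖ < 1 ∧ B i ζ = x := by
    intro x
    obtain ⟨y, hy⟩ := mem_iUnion.1 (htK (mem_univ x))
    obtain ⟨hyt, ζ, hζ, hx⟩ := mem_iUnion.1 hy
    exact ⟨⟨y, hyt⟩, ζ, by rwa [mem_ball_zero_iff] at hζ, by rw [hBe]; exact hx⟩
  have hq : ∀ i, ContDiff ℝ ∞ (fun z => e (B i z)) := q_smooth heI hBl
  have hF : ∀ t, Continuous fun x => j (f t x) := fun t => hj.comp (hf.comp (by fun_prop : Continuous fun x => (t, x)))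
  have hgc : ∀ t i, Continuous (fun z => j (f t (B i z))) := fun t i => (hF t).comp (hBc i)
  -- local inverses of the charts
  have hinv : ∀ (i : t) (ζ : E (d + 1)), ‖ζ‖ < 1 → ∃ b : M → E (d + 1), Tendsto b (𝓝 (B i ζ)) (𝓝 ζ) ∧
      ∀ᶠ x in 𝓝 (B i ζ), B i (b x) = x ∧ ‖b x‖ < 1 := by
    intro i ζ hζ
    obtain ⟨b, hb, hb0, -, hb2⟩ := (hBl i ζ).exists_inverse
    have hbt : Tendsto b (𝓝 (B i ζ)) (𝓝 ζ) := by
      have := hb.continuousAt.tendsto
      rwa [hb0] at this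
    have hb1 : ∀ᶠ y in 𝓝 ζ, ‖y‖ < 1 := by
      have := isOpen_ball.mem_nhds (show ζ ∈ ball (0 : E (d + 1)) 1 by rw [mem_ball_zero_iff]; exact hζ)
      filter_upwards [this] with y hy
      rwa [mem_ball_zero_iff] at hy
    exact ⟨b, hbt, hb2.and (hbt.eventually hb1)⟩
  -- the family, at all points
  obtain ⟨P, hP⟩ : ∃ P : ℝ → ℝ → M × T → Prop, P = fun s ε q => ∃ (i : t) (y : E (d + 1)), ‖y‖ < 1 ∧
      B i y = q.1 ∧ ∀ h : M → E k, Continuous h → (∀ x, ‖h x - j (f q.2 x)‖ ≤ ε) →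
      Gs ρ β (fun i z => e (B i z)) (fun i z => h (B i z)) s (e (B i y)) ∈ Ω ∧ ∀ v : E (d + 1), ‖v‖ = 1 →
      fderiv ℝ (fun z => j (π z)) (Gs ρ β (fun i z => e (B i z)) (fun i z => h (B i z)) s (e (B i y)))
        (fderiv ℝ (Gs ρ β (fun i z => e (B i z)) (fun i z => h (B i z)) s) (e (B i y))
          (fderiv ℝ (fun z => e (B i z)) y v)) ≠ 0 := ⟨_, rfl⟩
  have hPmono : ∀ s ε ε' q, ε' ≤ ε → P s ε q → P s ε' q := by
    intro s ε ε' q hεε
    rw [hP]
    rintro ⟨i, y, h1, h2, h3⟩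
    exact ⟨i, y, h1, h2, fun h hh hh2 => h3 h hh fun x => (hh2 x).trans hεε⟩
  have hfam : ∀ᶠ s : ℝ in 𝓝[>] 0, s ∈ S → ∃ ε : ℝ, 0 < ε ∧ ∀ q ∈ (univ : Set (M × T)), P s ε q := by
    refine (isCompact_univ (X := M × T)).induction_on (p := fun A => ∀ᶠ s : ℝ in 𝓝[>] 0, s ∈ S →
      ∃ ε : ℝ, 0 < ε ∧ ∀ q ∈ A, P s ε q) ?_ ?_ ?_ ?_
    · exact Filter.Eventually.of_forall fun s _ => ⟨1, one_pos, fun q hq => absurd hq (notMem_empty q)⟩
    · intro A A' hAA hA'
      filter_upwards [hA'] with s hs hsS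
      obtain ⟨ε, hε, h⟩ := hs hsS
      exact ⟨ε, hε, fun q hq => h q (hAA hq)⟩
    · intro A A' hA' hA''
      filter_upwards [hA', hA''] with s hs hs' hsS
      obtain ⟨ε, hε, h⟩ := hs hsS
      obtain ⟨ε', hε', h'⟩ := hs' hsS
      refine ⟨min ε ε', lt_min hε hε', fun q hq => ?_⟩
      rcases hq with hq | hq
      · exact hPmono _ _ _ _ (min_le_left _ _) (h q hq)
      · exact hPmono _ _ _ _ (min_le_right _ _) (h' q hq)
    · rintro ⟨x0, s0⟩ -
      obtain ⟨i, ζ, hζ, hx⟩ := hcov x0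
      subst hx
      obtain ⟨b, hbt, hb2⟩ := hinv i ζ hζ
      obtain ⟨Λ, hΛ, hTG⟩ := hrec s0 (B i ζ)
      have hlow := fam_low (g := f) hρ hηη hA hβ hβ0 hβs hβp hee heI hf hj hBi hBl hΩ hjΩ hπj hπs i hζ hΛ hTG
      obtain ⟨p1, hp1, p2, hp2, hp12⟩ := Filter.eventually_prod_iff.1 hlow
      obtain ⟨q1, hq1, q2, hq2, hq12⟩ := Filter.eventually_prod_iff.1 hp1
      obtain ⟨r1, hr1, r2, hr2, hr12⟩ := Filter.eventually_prod_iff.1 hp2
      have hpos : ∀ᶠ s : ℝ in 𝓝[>] 0, 0 < s := self_mem_nhdsWithin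
      obtain ⟨ϑ, hϑ, hϑ0⟩ := (hr1.and hpos).exists
      refine ⟨{q : M × T | (q2 (b q.1) ∧ B i (b q.1) = q.1 ∧ ‖b q.1‖ < 1) ∧ r2 q.2}, ?_, ?_⟩
      · rw [nhdsWithin_univ, nhds_prod_eq]
        refine Filter.Eventually.and ?_ ?_
        · exact tendsto_fst.eventually ((hbt.eventually hq2).and hb2)
        · exact tendsto_snd.eventually hr2
      · filter_upwards [hq1, hpos] with s hs hs0 hsS
        have hΛs : 0 < Λ s := zero_lt_one.trans_le (hΛ s)
        refine ⟨ϑ * s / Λ s, by positivity, ?_⟩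
        rintro ⟨x, t'⟩ ⟨⟨h1, h2, h3⟩, h4⟩
        rw [hP]
        have h5 := hp12 (x := (s, b x)) (hq12 hs h1) (y := (ϑ, t')) (hr12 hϑ h4)
        have h6 := h5 hsS
        dsimp only at h6
        exact ⟨i, b x, h3, h2, h6⟩
  -- the ends
  have hend : ∀ t' : T, (∀ x, LD (d + 1) (f t') x) → ∀ᶠ s : ℝ in 𝓝[>] 0, ∀ x : M, ∃ (i : t) (y : E (d + 1)), ‖y‖ < 1 ∧
      B i y = x ∧ ∀ a : ℝ, 0 ≤ a → a ≤ 1 →
      j (f t' (B i y)) + a • (Gs ρ β (fun i z => e (B i z)) (fun i z => j (f t' (B i z))) s (e (B i y)) -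
        j (f t' (B i y))) ∈ Ω ∧ ∀ v : E (d + 1), ‖v‖ = 1 →
      fderiv ℝ (fun z => j (π z)) (j (f t' (B i y)) + a • (Gs ρ β (fun i z => e (B i z))
        (fun i z => j (f t' (B i z))) s (e (B i y)) - j (f t' (B i y)))) (fderiv ℝ (fun z => j (f t' (B i z))) y v +
        a • (fderiv ℝ (Gs ρ β (fun i z => e (B i z)) (fun i z => j (f t' (B i z))) s) (e (B i y))
          (fderiv ℝ (fun z => e (B i z)) y v) - fderiv ℝ (fun z => j (f t' (B i z))) y v)) ≠ 0 := by
    intro t' hLD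
    have hft : Continuous (f t') := hf.comp (by fun_prop : Continuous fun x => (t', x))
    have hloc : ∀ p ∈ (univ : Set M), {q : ℝ × M | ∃ (i : t) (y : E (d + 1)), ‖y‖ < 1 ∧
        B i y = q.2 ∧ ∀ a : ℝ, 0 ≤ a → a ≤ 1 →
        j (f t' (B i y)) + a • (Gs ρ β (fun i z => e (B i z)) (fun i z => j (f t' (B i z))) q.1 (e (B i y)) -
          j (f t' (B i y))) ∈ Ω ∧ ∀ v : E (d + 1), ‖v‖ = 1 →
        fderiv ℝ (fun z => j (π z)) (j (f t' (B i y)) + a • (Gs ρ β (fun i z => e (B i z))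
          (fun i z => j (f t' (B i z))) q.1 (e (B i y)) - j (f t' (B i y))))
          (fderiv ℝ (fun z => j (f t' (B i z))) y v +
          a • (fderiv ℝ (Gs ρ β (fun i z => e (B i z)) (fun i z => j (f t' (B i z))) q.1) (e (B i y))
            (fderiv ℝ (fun z => e (B i z)) y v) - fderiv ℝ (fun z => j (f t' (B i z))) y v)) ≠ 0} ∈
        𝓝[>] (0 : ℝ) ×ˢ 𝓝 p := by
      rintro x0 -
      obtain ⟨i, ζ, hζ, hx⟩ := hcov x0
      subst hx
      obtain ⟨b, hbt, hb2⟩ := hinv i ζ hζ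
      have hlow := good_low (g := f t') hρ (hη0.trans hηη) hA hβ hβ0 hβs hβp hee heI hft hj hjI hBi hBl hΩ hjΩ hπj hπs
        i hζ (hLD _)
      have ht : Tendsto (fun q : ℝ × M => (q.1, b q.2)) (𝓝[>] (0 : ℝ) ×ˢ 𝓝 (B i ζ)) (𝓝[>] 0 ×ˢ 𝓝 ζ) :=
        tendsto_fst.prodMk (hbt.comp tendsto_snd)
      filter_upwards [ht.eventually hlow, tendsto_snd.eventually hb2] with q hq1 hq2
      exact ⟨i, b q.2, hq2.2, hq2.1, hq1⟩
    have h2 := (isCompact_univ (X := M)).mem_prod_nhdsSet_of_forall hloc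
    obtain ⟨U, hU, V, hV, hUV⟩ := Filter.mem_prod_iff.1 h2
    filter_upwards [hU] with a ha x
    exact hUV (show (a, x) ∈ U ×ˢ V from ⟨ha, subset_of_mem_nhdsSet hV (mem_univ _)⟩)
  -- the scale
  have hpos : ∀ᶠ s : ℝ in 𝓝[>] 0, 0 < s := self_mem_nhdsWithin
  obtain ⟨s, hsS, hs1, hs2, hs3, hs0⟩ := (hS.and_eventually (hfam.and ((hend t0 h0).and ((hend t1 h1).and hpos)))).exists
  obtain ⟨ε, hε0, hgood⟩ := hs1 hsS
  rw [hP] at hgood
  obtain ⟨A, hAe⟩ : ∃ A : T → M → E k, A = fun t' x =>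
    Gs ρ β (fun i z => e (B i z)) (fun i z => j (f t' (B i z))) s (e x) := ⟨_, rfl⟩
  have hZ : ∀ x, Zs ρ β (fun i z => e (B i z)) s (e x) ≠ 0 := by
    intro x
    obtain ⟨i, ζ, hζ, hx⟩ := hcov x
    subst hx
    exact (Zs_pos (q := fun i z => e (B i z)) hρ hβ hβ0 hβs hβp (fun i => (hq i).continuous) i hζ).ne'
  have hGsm : ∀ t' x, ContDiffAt ℝ ∞ (Gs ρ β (fun i z => e (B i z)) (fun i z => j (f t' (B i z))) s) (e x) :=
    fun t' x => Gs_smooth (g := fun i z => j (f t' (B i z))) hβ hβs hq (hgc t') s (hZ x)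
  have hAc : ∀ t', Continuous (A t') := by
    intro t'
    rw [hAe, continuous_iff_continuousAt]
    intro x
    exact ContinuousAt.comp (f := e) (hGsm t' x).continuousAt he.continuousAt
  have hAs : ∀ t' i y, ContDiffAt ℝ ∞ (fun z => A t' (B i z)) y := by
    intro t' i y
    rw [hAe]
    exact ContDiffAt.comp (g := Gs ρ β (fun i z => e (B i z)) (fun i z => j (f t' (B i z))) s)
      (f := fun z => e (B i z)) y (hGsm t' _) (hq i).contDiffAt
  have hAd : ∀ t' i y v, fderiv ℝ (fun z => A t' (B i z)) y v =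
      fderiv ℝ (Gs ρ β (fun i z => e (B i z)) (fun i z => j (f t' (B i z))) s) (e (B i y))
        (fderiv ℝ (fun z => e (B i z)) y v) := by
    intro t' i y v
    rw [hAe]
    have h2 : HasFDerivAt (fun z => Gs ρ β (fun i z => e (B i z)) (fun i z => j (f t' (B i z))) s (e (B i z)))
        ((fderiv ℝ (Gs ρ β (fun i z => e (B i z)) (fun i z => j (f t' (B i z))) s) (e (B i y))).comp
          (fderiv ℝ (fun z => e (B i z)) y)) y :=
      HasFDerivAt.comp (g := Gs ρ β (fun i z => e (B i z)) (fun i z => j (f t' (B i z))) s)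
        (f := fun z => e (B i z)) y ((hGsm t' _).differentiableAt (by simp)).hasFDerivAt
        ((hq i).differentiable (by simp) _).hasFDerivAt
    rw [h2.fderiv]
    rfl
  -- the ends are joined to the averages
  have hjoin : ∀ t' : T, (∀ x, LD (d + 1) (f t') x) → (∀ x : M, ∃ (i : t) (y : E (d + 1)), ‖y‖ < 1 ∧
      B i y = x ∧ ∀ a : ℝ, 0 ≤ a → a ≤ 1 →
      j (f t' (B i y)) + a • (Gs ρ β (fun i z => e (B i z)) (fun i z => j (f t' (B i z))) s (e (B i y)) -
        j (f t' (B i y))) ∈ Ω ∧ ∀ v : E (d + 1), ‖v‖ = 1 →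
      fderiv ℝ (fun z => j (π z)) (j (f t' (B i y)) + a • (Gs ρ β (fun i z => e (B i z))
        (fun i z => j (f t' (B i z))) s (e (B i y)) - j (f t' (B i y)))) (fderiv ℝ (fun z => j (f t' (B i z))) y v +
        a • (fderiv ℝ (Gs ρ β (fun i z => e (B i z)) (fun i z => j (f t' (B i z))) s) (e (B i y))
          (fderiv ℝ (fun z => e (B i z)) y v) - fderiv ℝ (fun z => j (f t' (B i z))) y v)) ≠ 0) →
      LDIso (d + 1) (f t') (fun x => π (A t' x)) := by
    intro t' hLD hx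
    have h2 := lin_iso (n := d + 1) (j := j) hBl hjI hΩ hπc hπs (G0 := fun x => j (f t' x)) (G1 := A t') (hF t')
      (hAc t') (fun i y _ => (imm_smooth (B := fun z => f t' (B i z)) (hjI _)
        (Pool.Agent.Y522.LD.comp_fun (hLD _) (hBl i y))).1) (fun i y _ => hAs t' i y) (fun x => by
        obtain ⟨i, y, hy, hyx, h3⟩ := hx x
        refine ⟨i, y, hy, hyx, fun a ha0 ha1 => ?_⟩
        obtain ⟨h4, h5⟩ := h3 a ha0 ha1
        have e1 : A t' (B i y) = Gs ρ β (fun i z => e (B i z)) (fun i z => j (f t' (B i z))) s (e (B i y)) := by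
          rw [hAe]
        simp only [e1, hAd]
        exact ⟨h4, h5⟩)
    have h3 : (fun x => π (j (f t' x))) = f t' := funext fun x => hπj _
    rw [h3] at h2
    exact h2
  -- the averages are joined to each other
  have hstep : ∀ t' : T, ∀ᶠ t'' in 𝓝 t', LDIso (d + 1) (fun x => π (A t' x)) (fun x => π (A t'' x)) := by
    intro t'
    have hclose : ∀ᶠ t'' in 𝓝 t', ∀ x ∈ (univ : Set M), ‖j (f t'' x) - j (f t' x)‖ ≤ ε := by
      refine isCompact_univ.eventually_forall_of_forall_eventually fun x _ => ?_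
      have hc : Continuous fun p : T × M => ‖j (f p.1 p.2) - j (f t' p.2)‖ :=
        ((hj.comp hf).sub ((hF t').comp continuous_snd)).norm
      have h2 := hc.tendsto (t', x)
      rw [sub_self, norm_zero] at h2
      filter_upwards [h2.eventually (gt_mem_nhds hε0)] with p hp
      exact hp.le
    filter_upwards [hclose] with t'' ht''
    refine lin_iso (n := d + 1) (j := j) hBl hjI hΩ hπc hπs (hAc t') (hAc t'') (fun i y _ => hAs t' i y)
      (fun i y _ => hAs t'' i y) fun x => ?_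
    obtain ⟨i, y, hy, hyx, h3⟩ := hgood (x, t') (mem_univ _)
    refine ⟨i, y, hy, hyx, fun a ha0 ha1 => ?_⟩
    obtain ⟨h4, h5⟩ := h3 (fun x => j (f t' x) + a • (j (f t'' x) - j (f t' x)))
      ((hF t').add ((continuous_const (y := a)).smul ((hF t'').sub (hF t')))) (fun x => by
        have e1 : j (f t' x) + a • (j (f t'' x) - j (f t' x)) - j (f t' x) = a • (j (f t'' x) - j (f t' x)) := by abel
        rw [e1, norm_smul, Real.norm_eq_abs, abs_of_nonneg ha0]
        calc a * ‖j (f t'' x) - j (f t' x)‖ ≤ 1 * ‖j (f t'' x) - j (f t' x)‖ :=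
              mul_le_mul_of_nonneg_right ha1 (norm_nonneg _)
          _ ≤ ε := by rw [one_mul]; exact ht'' x (mem_univ _))
    have e2 : Gs ρ β (fun i z => e (B i z)) (fun i z => j (f t' (B i z)) + a • (j (f t'' (B i z)) - j (f t' (B i z)))) s =
        fun p => Gs ρ β (fun i z => e (B i z)) (fun i z => j (f t' (B i z))) s p +
          a • (Gs ρ β (fun i z => e (B i z)) (fun i z => j (f t'' (B i z))) s p -
            Gs ρ β (fun i z => e (B i z)) (fun i z => j (f t' (B i z))) s p) := by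
      funext p
      exact Gs_lin (g := fun i z => j (f t' (B i z))) (g' := fun i z => j (f t'' (B i z))) hβ hβs
        (fun i => (hq i).continuous) (hgc t') (hgc t'') a s p
    have d1 := ((hGsm t' (B i y)).differentiableAt (by simp)).hasFDerivAt
    have d2 := ((hGsm t'' (B i y)).differentiableAt (by simp)).hasFDerivAt
    have e3 := (d1.fun_add ((d2.fun_sub d1).fun_const_smul a)).fderiv
    simp only [e2] at h4 h5
    simp only [e3] at h5
    have e4 : ∀ t', A t' (B i y) = Gs ρ β (fun i z => e (B i z)) (fun i z => j (f t' (B i z))) s (e (B i y)) := by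
      intro t'; rw [hAe]
    simp only [e4, hAd]
    exact ⟨h4, h5⟩
  have hall : LDIso (d + 1) (fun x => π (A t0 x)) (fun x => π (A t1 x)) := by
    refine PreconnectedSpace.induction₂' (fun t' t'' => LDIso (d + 1) (fun x => π (A t' x)) (fun x => π (A t'' x)))
      (fun t' => ?_) ⟨fun _ _ _ h h' => h.trans h'⟩ t0 t1
    filter_upwards [hstep t'] with t'' h
    exact ⟨h, h.symm⟩
  exact (hjoin t0 h0 hs2).trans (hall.trans (hjoin t1 h1 hs3).symm)

end Pool.Agent.H33.PI
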