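import Pool.Agent.H33.PI.Mid

/-!
# Smooth paths of local diffeomorphisms have nearly antipodal images of antipodal points of small spheres
-/

set_option autoImplicit false

open Set Filter Topology Metric Function
open scoped Manifold ContDiff

noncomputable section

namespace Pool.Agent.H33.PI

open Pool.Agent.H33.NC
open Pool.Agent.Y522 (LD)
open Pool.Agent.H865_small (Imm exists_iso iso_norm exists_chartB imm_smooth)

variable {n m k : ℕ} {X Y : Type} [TopologicalSpace X] [ChartedSpace (E n) X] [TopologicalSpace Y]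
  [ChartedSpace (E n) Y]

/-- isometric parametrizations -/
theorem exists_param2 [IsManifold (𝓡 n) ∞ X] {e : X → E m} {x : X} (he : Imm (n := n) e x) :
    ∃ A : E n → X, A 0 = x ∧ (∀ z, LD n A z) ∧ ∃ J : E n →L[ℝ] E m, (∀ v, ‖J v‖ = ‖v‖) ∧
      HasStrictFDerivAt (fun z => e (A z)) J 0 := by
  obtain ⟨B, hB0, -, hB⟩ := exists_chartB (n := n) x
  obtain ⟨hs, hi⟩ := imm_smooth (n := n) (e := e) (B := B) (z := 0) (by rw [hB0]; exact he) (hB 0)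
  obtain ⟨S, hS⟩ := exists_iso hi
  have hSn := iso_norm hS
  refine ⟨fun z => B (S.symm z), by simp [hB0], fun z => ?_,
    (fderiv ℝ (fun z => e (B z)) 0).comp (S.symm : E n →L[ℝ] E n), fun v => ?_, ?_⟩
  · exact Pool.Agent.Y522.LD.comp_fun (hB _) (Pool.Agent.Y522.LD_linear S.symm z)
  · show ‖fderiv ℝ (fun z => e (B z)) 0 (S.symm v)‖ = ‖v‖
    rw [hSn, ContinuousLinearEquiv.apply_symm_apply]
  · have h1 : HasStrictFDerivAt (fun z => e (B z)) (fderiv ℝ (fun z => e (B z)) 0) (S.symm 0) := by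
      rw [map_zero]
      exact hs.hasStrictFDerivAt (by simp)
    exact h1.comp (0 : E n) S.symm.hasStrictFDerivAt

/-- the estimate for nearly linear maps -/
theorem mid_est {F : E n → E k} {G : E n → E m} {D : E n →L[ℝ] E k} {c C μ ρ δ s : ℝ} (hc : 0 < c) (hC : 0 ≤ C)
    (hδ : 0 < δ) (hμ : 0 < μ) (hμ1 : μ ≤ 1 / 4) (hμ2 : μ ≤ c / 2) (hμ3 : μ ≤ δ * c / 32)
    (hμ4 : C ^ 2 * (58 * μ) ≤ (δ * c / 8) ^ 2) (hs : 0 < s)
    (hD : ∀ v, c * ‖v‖ ≤ ‖D v‖ ∧ ‖D v‖ ≤ C * ‖v‖)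
    (hG : ∀ z z', ‖z‖ < ρ → ‖z'‖ < ρ → |‖G z - G z'‖ - ‖z - z'‖| ≤ μ * ‖z - z'‖)
    (hF : ∀ z z', ‖z‖ < ρ → ‖z'‖ < ρ → ‖F z - F z' - D (z - z')‖ ≤ μ * ‖z - z'‖)
    {u v w : E n} (hu : ‖u‖ < ρ) (hv : ‖v‖ < ρ) (hw : ‖w‖ < ρ)
    (huv : |‖G u - G v‖ - s| ≤ μ * s) (huw : |‖G u - G w‖ - s| ≤ μ * s) :
    (‖F u - F v‖ < (8 * (C + c) / c + 1) * ‖F u - F w‖) ∧
      (|‖G v - G w‖ - 2 * s| ≤ μ * s → ‖F v + F w - (2 : ℝ) • F u‖ ≤ δ * ‖F u - F v‖) := by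
  have hd : ∀ p q : E n, ‖p‖ < ρ → ‖q‖ < ρ → |‖G p - G q‖ - s| ≤ μ * s →
      ‖p - q‖ ≤ (1 + 4 * μ) * s ∧ s / 2 ≤ ‖p - q‖ := by
    intro p q hp hq hpq
    have h1 := hG p q hp hq
    obtain ⟨d, hdd⟩ : ∃ d : ℝ, d = ‖p - q‖ := ⟨_, rfl⟩
    obtain ⟨g, hg⟩ : ∃ g : ℝ, g = ‖G p - G q‖ := ⟨_, rfl⟩
    rw [← hdd, ← hg] at h1
    rw [← hg] at hpq
    rw [← hdd]
    have hd0 : 0 ≤ d := by rw [hdd]; exact norm_nonneg _
    rw [abs_le] at h1 hpq
    have a1 : (1 - μ) * d ≤ (1 + μ) * s := by linarith [h1.1, hpq.2]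
    have a2 : (1 - μ) * s ≤ (1 + μ) * d := by linarith [h1.2, hpq.1]
    constructor
    · by_contra hcon
      push Not at hcon
      have h2 : (1 - μ) * ((1 + 4 * μ) * s) < (1 - μ) * d := mul_lt_mul_of_pos_left hcon (by linarith)
      have h3 : 0 ≤ μ * s * (1 - 2 * μ) := mul_nonneg (by positivity) (by linarith)
      nlinarith
    · nlinarith
  have hlow : ∀ p q : E n, ‖p‖ < ρ → ‖q‖ < ρ → s / 2 ≤ ‖p - q‖ → c * s / 4 ≤ ‖F p - F q‖ := by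
    intro p q hp hq hpq
    have h1 := hF p q hp hq
    have h2 := (hD (p - q)).1
    have h3 : ‖D (p - q)‖ ≤ ‖F p - F q‖ + ‖F p - F q - D (p - q)‖ := by
      have : D (p - q) = (F p - F q) - (F p - F q - D (p - q)) := by abel
      calc ‖D (p - q)‖ = ‖(F p - F q) - (F p - F q - D (p - q))‖ := by rw [← this]
        _ ≤ _ := norm_sub_le _ _
    have h4 : μ * ‖p - q‖ ≤ c / 2 * ‖p - q‖ := mul_le_mul_of_nonneg_right hμ2 (norm_nonneg _)
    have h5 : c / 2 * (s / 2) ≤ c / 2 * ‖p - q‖ := mul_le_mul_of_nonneg_left hpq (by positivity)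
    nlinarith
  obtain ⟨d1, d1'⟩ := hd u v hu hv huv
  obtain ⟨d2, d2'⟩ := hd u w hu hw huw
  have l1 := hlow u v hu hv d1'
  have l2 := hlow u w hu hw d2'
  have hcs : 0 < c * s / 4 := by positivity
  constructor
  · have h1 := hF u v hu hv
    have h2 := (hD (u - v)).2
    have h3 : ‖F u - F v‖ ≤ ‖D (u - v)‖ + ‖F u - F v - D (u - v)‖ := by
      have : F u - F v = D (u - v) + (F u - F v - D (u - v)) := by abel
      calc ‖F u - F v‖ = ‖D (u - v) + (F u - F v - D (u - v))‖ := by rw [← this]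
        _ ≤ _ := norm_add_le _ _
    have h4 : ‖F u - F v‖ ≤ (C + c) * (2 * s) := by
      have h5 : ‖u - v‖ ≤ 2 * s := by nlinarith
      have h6 : (C + μ) * ‖u - v‖ ≤ (C + c) * (2 * s) :=
        mul_le_mul (by linarith) h5 (norm_nonneg _) (by positivity)
      linarith
    have h5 : (C + c) * (2 * s) = (8 * (C + c) / c) * (c * s / 4) := by
      field_simp
      ring
    have h6 : (8 * (C + c) / c) * (c * s / 4) ≤ (8 * (C + c) / c) * ‖F u - F w‖ :=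
      mul_le_mul_of_nonneg_left l2 (by positivity)
    linarith
  · intro hvw
    have h1 := hG v w hv hw
    have d3 : (2 - 3 * μ) * s ≤ ‖v - w‖ := by
      rw [abs_le] at h1 hvw
      have a2 : (2 - μ) * s ≤ (1 + μ) * ‖v - w‖ := by linarith [h1.2, hvw.1]
      by_contra hcon
      push Not at hcon
      have h2 : (1 + μ) * ‖v - w‖ < (1 + μ) * ((2 - 3 * μ) * s) := mul_lt_mul_of_pos_left hcon (by linarith)
      have h3 : 0 ≤ μ * μ * s := by positivity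
      nlinarith
    have hpar := parallelogram_law_with_norm ℝ (v - u) (w - u)
    have e1 : v - u - (w - u) = v - w := by abel
    rw [e1, norm_sub_rev v u, norm_sub_rev w u] at hpar
    have b1 : ‖u - v‖ * ‖u - v‖ ≤ ((1 + 4 * μ) * s) * ((1 + 4 * μ) * s) :=
      mul_self_le_mul_self (norm_nonneg _) d1
    have b2 : ‖u - w‖ * ‖u - w‖ ≤ ((1 + 4 * μ) * s) * ((1 + 4 * μ) * s) :=
      mul_self_le_mul_self (norm_nonneg _) d2
    have b3 : ((2 - 3 * μ) * s) * ((2 - 3 * μ) * s) ≤ ‖v - w‖ * ‖v - w‖ :=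
      mul_self_le_mul_self (by have : 0 ≤ 2 - 3 * μ := by linarith
                               positivity) d3
    have b4 : ‖v - u + (w - u)‖ ^ 2 ≤ 58 * μ * s ^ 2 := by
      have h2 : 0 ≤ μ * s ^ 2 * (1 / 4 - μ) := mul_nonneg (by positivity) (by linarith)
      nlinarith
    have b5 : C * ‖v - u + (w - u)‖ ≤ δ * c / 8 * s := by
      have h2 : (C * ‖v - u + (w - u)‖) ^ 2 ≤ (δ * c / 8 * s) ^ 2 := by
        calc (C * ‖v - u + (w - u)‖) ^ 2 = C ^ 2 * ‖v - u + (w - u)‖ ^ 2 := by ring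
          _ ≤ C ^ 2 * (58 * μ * s ^ 2) := mul_le_mul_of_nonneg_left b4 (sq_nonneg C)
          _ = C ^ 2 * (58 * μ) * s ^ 2 := by ring
          _ ≤ (δ * c / 8) ^ 2 * s ^ 2 := mul_le_mul_of_nonneg_right hμ4 (sq_nonneg s)
          _ = _ := by ring
      exact le_of_sq_le_sq h2 (by positivity)
    have b6 : F v + F w - (2 : ℝ) • F u = (F v - F u - D (v - u)) + (F w - F u - D (w - u)) +
        D (v - u + (w - u)) := by
      rw [map_add, two_smul]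
      abel
    have h2 := hF v u hv hu
    have h3 := hF w u hw hu
    rw [norm_sub_rev v u] at h2
    rw [norm_sub_rev w u] at h3
    have h4 := (hD (v - u + (w - u))).2
    have h5 : ‖F v + F w - (2 : ℝ) • F u‖ ≤ μ * ‖u - v‖ + μ * ‖u - w‖ + C * ‖v - u + (w - u)‖ := by
      rw [b6]
      refine (norm_add_le _ _).trans (add_le_add ((norm_add_le _ _).trans (add_le_add h2 h3)) h4)
    have h6 : ‖u - v‖ ≤ 2 * s := by nlinarith
    have h7 : ‖u - w‖ ≤ 2 * s := by nlinarith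
    have h8 : μ * ‖u - v‖ ≤ μ * (2 * s) := mul_le_mul_of_nonneg_left h6 hμ.le
    have h9 : μ * ‖u - w‖ ≤ μ * (2 * s) := mul_le_mul_of_nonneg_left h7 hμ.le
    have h10 : μ * (4 * s) ≤ δ * c / 32 * (4 * s) := mul_le_mul_of_nonneg_right hμ3 (by positivity)
    have h11 : δ * (c * s / 4) ≤ δ * ‖F u - F v‖ := mul_le_mul_of_nonneg_left l1 hδ.le
    linarith

/-- strict differentiability, in terms of a radius -/
theorem strict_radius {b : ℕ} {V : Type} [NormedAddCommGroup V] [NormedSpace ℝ V] {F : V → E b} {D : V →L[ℝ] E b}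
    {q0 : V} (h : HasStrictFDerivAt F D q0) {θ : ℝ} (hθ : 0 < θ) :
    ∃ ρ : ℝ, 0 < ρ ∧ ∀ q q' : V, ‖q - q0‖ < ρ → ‖q' - q0‖ < ρ → ‖F q - F q' - D (q - q')‖ ≤ θ * ‖q - q'‖ := by
  have h3 := h.isLittleO.bound hθ
  rw [Metric.eventually_nhds_iff] at h3
  obtain ⟨t, ht, h4⟩ := h3
  refine ⟨t, ht, fun q q' hq hq' => ?_⟩
  exact h4 (y := (q, q')) (by
    rw [Prod.dist_eq]
    exact max_lt (by simpa [dist_eq_norm] using hq) (by simpa [dist_eq_norm] using hq'))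

theorem midP_of_smooth [IsManifold (𝓡 n) ∞ X] [IsManifold (𝓡 n) ∞ Y] {e : X → E m} {j : Y → E k} {x : X}
    (he : Imm (n := n) e x) (hj : ∀ y, Imm (n := n) j y) {K : ℝ × X → Y}
    (hK : ContMDiff ((𝓘(ℝ, ℝ)).prod (𝓡 n)) (𝓡 n) ∞ K) (hL : ∀ t x, LD n (fun x => K (t, x)) x)
    (t0 : unitInterval) (S : Set ℝ) :
    ∃ K0 : ℝ, 1 ≤ K0 ∧ ∀ δ : ℝ, 0 < δ → MidP e (fun (t : unitInterval) x => j (K ((t : ℝ), x))) S K0 δ t0 x := by
  obtain ⟨A, hA0, hA, J, hJ, hAs⟩ := exists_param2 (n := n) he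
  obtain ⟨y0, hy0⟩ : ∃ y0, y0 = K ((t0 : ℝ), x) := ⟨_, rfl⟩
  obtain ⟨B, hB0, -, hB⟩ := exists_chartB (n := n) y0
  obtain ⟨b, hb, hb0, -, hb2⟩ := (hB 0).exists_inverse
  rw [hB0] at hb hb0 hb2
  have hKc : ContinuousAt (fun p : ℝ × E n => K (p.1, A p.2)) ((t0 : ℝ), 0) := by
    have h1 : ContinuousAt (fun p : ℝ × E n => (p.1, A p.2)) ((t0 : ℝ), 0) := by
      have h2 : ContinuousAt (fun p : ℝ × E n => A p.2) ((t0 : ℝ), 0) :=
        ContinuousAt.comp (g := A) (f := fun p : ℝ × E n => p.2) (hA 0).continuousAt continuous_snd.continuousAt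
      exact continuous_fst.continuousAt.prodMk h2
    exact ContinuousAt.comp (g := K) (f := fun p : ℝ × E n => (p.1, A p.2)) hK.continuous.continuousAt h1
  have hval : K (((t0 : ℝ), (0 : E n)).1, A ((t0 : ℝ), (0 : E n)).2) = y0 := by
    rw [hy0, ← hA0]
  have hs1 : ContDiffAt ℝ ∞ (fun p : ℝ × E n => b (K (p.1, A p.2))) ((t0 : ℝ), 0) := by
    have h1 : ContMDiffAt 𝓘(ℝ, ℝ × E n) ((𝓘(ℝ, ℝ)).prod (𝓡 n)) ∞ (fun p : ℝ × E n => (p.1, A p.2)) ((t0 : ℝ), 0) := by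
      have h2 : ContMDiffAt 𝓘(ℝ, ℝ × E n) (𝓡 n) ∞ (fun p : ℝ × E n => A p.2) ((t0 : ℝ), 0) := by
        have h3 : ContMDiffAt (𝓡 n) (𝓡 n) ∞ A (0 : E n) := (hA 0).contMDiffAt
        exact ContMDiffAt.comp (g := A) (f := fun p : ℝ × E n => p.2) ((t0 : ℝ), (0 : E n)) h3
          contDiffAt_snd.contMDiffAt
      exact contDiffAt_fst.contMDiffAt.prodMk h2
    have h4 : ContMDiffAt 𝓘(ℝ, ℝ × E n) (𝓡 n) ∞ (fun p : ℝ × E n => K (p.1, A p.2)) ((t0 : ℝ), 0) :=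
      ContMDiffAt.comp (g := K) (f := fun p : ℝ × E n => (p.1, A p.2)) ((t0 : ℝ), (0 : E n)) (hK _) h1
    have h5 : ContMDiffAt (𝓡 n) (𝓡 n) ∞ b (K (((t0 : ℝ), (0 : E n)).1, A ((t0 : ℝ), (0 : E n)).2)) := by
      rw [hval]; exact hb.contMDiffAt
    exact (ContMDiffAt.comp (g := b) (f := fun p : ℝ × E n => K (p.1, A p.2)) ((t0 : ℝ), (0 : E n)) h5 h4).contDiffAt
  have hjB : ContDiff ℝ ∞ (fun z => j (B z)) := contDiff_iff_contDiffAt.2 fun z => (imm_smooth (hj _) (hB z)).1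
  have hF : ContDiffAt ℝ ∞ (fun p : ℝ × E n => j (K (p.1, A p.2))) ((t0 : ℝ), 0) := by
    have h1 : ContDiffAt ℝ ∞ (fun p : ℝ × E n => j (B (b (K (p.1, A p.2))))) ((t0 : ℝ), 0) :=
      ContDiffAt.comp (g := fun z => j (B z)) ((t0 : ℝ), (0 : E n)) hjB.contDiffAt hs1
    refine h1.congr_of_eventuallyEq ?_
    have h2 : ∀ᶠ p : ℝ × E n in 𝓝 ((t0 : ℝ), 0), B (b (K (p.1, A p.2))) = K (p.1, A p.2) := by
      have h3 : Tendsto (fun p : ℝ × E n => K (p.1, A p.2)) (𝓝 ((t0 : ℝ), 0)) (𝓝 y0) := by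
        have := hKc.tendsto
        rwa [hval] at this
      exact h3.eventually hb2
    filter_upwards [h2] with p hp
    rw [hp]
  have hFs := hF.hasStrictFDerivAt (by simp)
  obtain ⟨D', hD'⟩ : ∃ D', D' = fderiv ℝ (fun p : ℝ × E n => j (K (p.1, A p.2))) ((t0 : ℝ), 0) := ⟨_, rfl⟩
  rw [← hD'] at hFs
  obtain ⟨D, hD⟩ : ∃ D : E n →L[ℝ] E k, D = D'.comp (ContinuousLinearMap.inr ℝ ℝ (E n)) := ⟨_, rfl⟩
  have hDv : ∀ v, D v = D' (0, v) := fun v => by rw [hD]; rfl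
  have hDi : Injective D := by
    have h1 : HasFDerivAt (fun z : E n => j (K ((t0 : ℝ), A z))) D 0 := by
      have h2 : HasFDerivAt (fun z : E n => ((t0 : ℝ), z)) (ContinuousLinearMap.inr ℝ ℝ (E n)) (0 : E n) :=
        hasFDerivAt_prodMk_right (t0 : ℝ) (0 : E n)
      rw [hD]
      exact HasFDerivAt.comp (g := fun p : ℝ × E n => j (K (p.1, A p.2))) (0 : E n) hFs.hasFDerivAt h2
    have h3 : LD n (fun z => K ((t0 : ℝ), A z)) 0 :=
      Pool.Agent.Y522.LD.comp_fun (g := fun x => K ((t0 : ℝ), x)) (hL _ _) (hA 0)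
    have h4 := (imm_smooth (e := j) (hj _) h3).2
    rwa [h1.fderiv] at h4
  obtain ⟨L, hL0, hLa⟩ := (D : E n →ₗ[ℝ] E k).exists_antilipschitzWith (LinearMap.ker_eq_bot.2 hDi)
  have hLr : (0 : ℝ) < L := by exact_mod_cast hL0
  obtain ⟨c, hc⟩ : ∃ c : ℝ, c = (L : ℝ)⁻¹ := ⟨_, rfl⟩
  have hc0 : 0 < c := by rw [hc]; positivity
  have hDn : ∀ v, c * ‖v‖ ≤ ‖D v‖ ∧ ‖D v‖ ≤ ‖D‖ * ‖v‖ := by
    intro v
    refine ⟨?_, D.le_opNorm v⟩
    have h1 := hLa.le_mul_dist v 0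
    rw [dist_zero_right, map_zero, dist_zero_right] at h1
    rw [hc, inv_mul_le_iff₀ hLr]
    exact h1
  refine ⟨8 * (‖D‖ + c) / c + 1, by
    have : 0 ≤ 8 * (‖D‖ + c) / c := by positivity
    linarith, fun δ hδ => ?_⟩
  obtain ⟨μ, hμ⟩ : ∃ μ : ℝ, μ = min (min (1 / 4) (c / 2)) (min (δ * c / 32) ((δ * c / 8) ^ 2 / (58 * (‖D‖ ^ 2 + 1)))) :=
    ⟨_, rfl⟩
  have hμ0 : 0 < μ := by rw [hμ]; positivity
  have hμ1 : μ ≤ 1 / 4 := by rw [hμ]; exact (min_le_left _ _).trans (min_le_left _ _)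
  have hμ2 : μ ≤ c / 2 := by rw [hμ]; exact (min_le_left _ _).trans (min_le_right _ _)
  have hμ3 : μ ≤ δ * c / 32 := by rw [hμ]; exact (min_le_right _ _).trans (min_le_left _ _)
  have hμ4 : ‖D‖ ^ 2 * (58 * μ) ≤ (δ * c / 8) ^ 2 := by
    have h1 : μ ≤ (δ * c / 8) ^ 2 / (58 * (‖D‖ ^ 2 + 1)) := by
      rw [hμ]; exact (min_le_right _ _).trans (min_le_right _ _)
    rw [le_div_iff₀ (by positivity)] at h1
    nlinarith
  obtain ⟨ρ1, hρ1, hG⟩ := strict_radius hAs hμ0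
  obtain ⟨ρ2, hρ2, hF2⟩ := strict_radius hFs hμ0
  obtain ⟨ρ, hρd⟩ : ∃ ρ : ℝ, ρ = min ρ1 ρ2 := ⟨_, rfl⟩
  have hρ : 0 < ρ := by rw [hρd]; exact lt_min hρ1 hρ2
  have hρρ1 : ρ ≤ ρ1 := by rw [hρd]; exact min_le_left _ _
  have hρρ2 : ρ ≤ ρ2 := by rw [hρd]; exact min_le_right _ _
  refine ⟨{t : unitInterval | |(t : ℝ) - t0| < ρ}, ?_, A '' ball 0 ρ, ?_, 1, one_pos, μ, hμ0, ?_⟩
  · have h1 : Continuous fun t : unitInterval => |(t : ℝ) - t0| := by fun_prop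
    have h2 := h1.tendsto t0
    rw [sub_self, abs_zero] at h2
    exact h2.eventually (gt_mem_nhds hρ)
  · have := (hA 0).image_mem_nhds (ball_mem_nhds (0 : E n) hρ)
    rwa [hA0] at this
  rintro t ht s - hs - _ ⟨u, hu, rfl⟩ _ ⟨v, hv, rfl⟩ _ ⟨w, hw, rfl⟩ huv huw
  rw [mem_ball_zero_iff] at hu hv hw
  have ht' : |(t : ℝ) - t0| < ρ := ht
  obtain ⟨h1, h2⟩ := mid_est (F := fun z => j (K ((t : ℝ), A z))) (G := fun z => e (A z)) (D := D) (C := ‖D‖) (ρ := ρ)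
    hc0 (norm_nonneg _) hδ hμ0 hμ1 hμ2 hμ3 hμ4 hs hDn (fun z z' hz hz' => by
      have h1 := hG z z' (by rw [sub_zero]; exact hz.trans_le hρρ1) (by rw [sub_zero]; exact hz'.trans_le hρρ1)
      have h2 := abs_norm_sub_norm_le (e (A z) - e (A z')) (J (z - z'))
      rw [hJ] at h2
      exact h2.trans h1) (fun z z' hz hz' => by
      have hq : ∀ z : E n, ‖z‖ < ρ → ‖((t : ℝ), z) - ((t0 : ℝ), (0 : E n))‖ < ρ2 := by
        intro z hz
        rw [Prod.mk_sub_mk, Prod.norm_def, sub_zero, Real.norm_eq_abs]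
        exact (max_lt ht' hz).trans_le hρρ2
      have h1 := hF2 ((t : ℝ), z) ((t : ℝ), z') (hq z hz) (hq z' hz')
      rw [Prod.mk_sub_mk, sub_self, ← hDv] at h1
      refine h1.trans (le_of_eq ?_)
      rw [Prod.norm_def]
      simp) hu hv hw huv huw
  exact ⟨fun _ => h1, h2⟩

end Pool.Agent.H33.PI
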