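import Pool.Agent.H33.PI.Asm
import Pool.Graph.R_pool_sql_team_seeded_620a6dc7.H865_iso.Fin

/-!
# Coarse coordinates of paths; from paths to smooth isotopies

A version of `Pool.Graph.R_pool_sql_team_seeded_620a6dc7.H865_iso.Conv2` and `Fin` in which the norms of the functionals
may grow in any way as the scale tends to zero.
-/

set_option autoImplicit false
set_option linter.unusedSectionVars false

open Set Filter Topology Metric Function MeasureTheory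
open scoped Manifold ContDiff

noncomputable section

namespace Pool.Agent.H33.PI

open Pool.Agent.Y522 (LD)
open Pool.Agent.H865_small (E Imm imm_smooth emb_near vol exists_diffeo)
open Pool.Agent.H865_cl (bij_of_homotopy)
open Pool.Agent.H865_iso (bij_of_LDIso)

/-- coarse coordinates of a path -/
def CG {m k : ℕ} {X T : Type} [TopologicalSpace X] [TopologicalSpace T] (e : X → E m) (F : T → X → E k) (S : Set ℝ)
    (η : ℝ) (t0 : T) (x : X) : Prop :=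
  ∃ Wt ∈ 𝓝 t0, ∃ U ∈ 𝓝 x, ∃ r : ℝ, 0 < r ∧ ∃ (C : ℝ) (Λ : ℝ → ℝ), ∀ t ∈ Wt, ∀ y ∈ U, ∀ s ∈ S, 0 < s → s < r → ∀ v : E m, ‖v‖ = 1 →
    ∃ (ℓ : E k →L[ℝ] ℝ) (c : ℝ), ‖ℓ‖ ≤ Λ s ∧ ∀ u ∈ U, ‖e u - e y‖ ≤ s →
      |ℓ (F t u) + c - inner ℝ v (e u - e y)| ≤ η * s ∧ ‖ℓ‖ * ‖F t u - F t y‖ ≤ C * s

variable {n m k : ℕ} {X T : Type} [TopologicalSpace X] [TopologicalSpace T] {e : X → E m} {F : T → X → E k}
  [ChartedSpace (E n) X]

theorem TG_of_CG (he : IsEmbedding e) (hI : ∀ x, Imm (n := n) e x) {S : Set ℝ} {η : ℝ} (hη : 0 ≤ η) {t0 : T} {x : X}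
    (h : CG e F S η t0 x) : ∃ Λ : ℝ → ℝ, (∀ s, 1 ≤ Λ s) ∧ TG (n := n) e F S η Λ t0 x := by
  obtain ⟨Wt, hWt, U, hU, r, hr, C, Λ0, hrec⟩ := h
  refine ⟨fun s => max 1 (Λ0 s), fun s => le_max_left _ _, ?_⟩
  intro B ζ hx hBi hBl v hv
  subst hx
  have hBc : Continuous B := continuous_iff_continuousAt.2 fun z => (hBl z).continuousAt
  have hq : ContDiff ℝ ∞ (fun z => e (B z)) := contDiff_iff_contDiffAt.2 fun z => (imm_smooth (hI _) (hBl z)).1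
  have hUev : ∀ᶠ y in 𝓝 ζ, B y ∈ U := hBc.continuousAt.eventually hU
  have hrev : ∀ᶠ s in 𝓝[>] (0 : ℝ), 0 < s ∧ s < r := Ioo_mem_nhdsGT hr
  have hfst : Tendsto (fun t : ℝ × E n × E n => (t.1, t.2.1)) (𝓝[>] 0 ×ˢ 𝓝 ζ ×ˢ 𝓝 v) (𝓝[>] 0 ×ˢ 𝓝 ζ) :=
    tendsto_fst.prodMk (tendsto_fst.comp tendsto_snd)
  have tV : Tendsto (fun t : ℝ × E n × E n => fderiv ℝ (fun z => e (B z)) t.2.1 t.2.2)
      (𝓝[>] 0 ×ˢ 𝓝 ζ ×ˢ 𝓝 v) (𝓝 (fderiv ℝ (fun z => e (B z)) ζ v)) := by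
    have h1 : Continuous fun p : E n × E n => fderiv ℝ (fun z => e (B z)) p.1 p.2 :=
      ((hq.continuous_fderiv (by simp)).comp continuous_fst).clm_apply continuous_snd
    have h2 := h1.tendsto (ζ, v)
    rw [nhds_prod_eq] at h2
    exact h2.comp tendsto_snd
  refine ⟨(‖fderiv ℝ (fun z => e (B z)) ζ v‖ + 1) * (|C| + 1), by positivity, ?_⟩
  have hT : ∀ᶠ t' in 𝓝 t0, t' ∈ Wt := hWt
  filter_upwards [tendsto_fst.eventually (hfst.eventually (emb_near he hBc.continuousAt hU)),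
    tendsto_fst.eventually (hfst.eventually (tendsto_snd.eventually hUev)),
    tendsto_fst.eventually (hfst.eventually (tendsto_fst.eventually hrev)),
    tendsto_fst.eventually (tV.norm.eventually (gt_mem_nhds (show ‖fderiv ℝ (fun z => e (B z)) ζ v‖ <
      ‖fderiv ℝ (fun z => e (B z)) ζ v‖ + 1 by linarith))), tendsto_snd.eventually hT]
    with q0 hnear htU hts htV htW htS
  obtain ⟨t, htq⟩ : ∃ t, t = q0.1 := ⟨_, rfl⟩
  obtain ⟨F', hF'⟩ : ∃ F', F' = F q0.2 := ⟨_, rfl⟩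
  have hrec' := hrec _ htW
  rw [← hF'] at hrec' ⊢
  simp only [← htq] at hnear htU hts htV htS ⊢
  obtain ⟨V, hV⟩ : ∃ V, V = fderiv ℝ (fun z => e (B z)) t.2.1 t.2.2 := ⟨_, rfl⟩
  rw [← hV] at htV ⊢
  have hts1 := hts.1
  rcases eq_or_ne V 0 with hV0 | hV0
  · have h2 : (0 : ℝ) < max 1 (Λ0 t.1) := lt_of_lt_of_le zero_lt_one (le_max_left _ _)
    refine ⟨0, 0, by rw [norm_zero]; positivity, fun u _ => ?_⟩
    rw [hV0]
    constructor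
    · simp
    · rw [norm_zero, zero_mul]
      positivity
  have hVn : 0 < ‖V‖ := norm_pos_iff.2 hV0
  obtain ⟨ℓ, c, hℓC, hℓ⟩ := hrec' (B t.2.1) htU t.1 htS hts.1 hts.2 (‖V‖⁻¹ • V)
    (by rw [norm_smul, norm_inv, norm_norm, inv_mul_cancel₀ hVn.ne'])
  refine ⟨‖V‖ • ℓ, ‖V‖ * c, ?_, fun u hu => ?_⟩
  · rw [norm_smul, norm_norm]
    have h1 : ‖ℓ‖ ≤ max 1 (Λ0 t.1) := hℓC.trans (le_max_right _ _)
    have h2 : (0 : ℝ) < max 1 (Λ0 t.1) := lt_of_lt_of_le zero_lt_one (le_max_left _ _)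
    have h3 : max 1 (Λ0 t.1) ≤ (|C| + 1) * max 1 (Λ0 t.1) := by nlinarith [abs_nonneg C]
    rw [mul_assoc]
    exact mul_le_mul htV.le (h1.trans h3) (norm_nonneg _) (by positivity)
  obtain ⟨h4, h5⟩ := hℓ u (hnear _ hu) hu
  constructor
  · have e1 : (‖V‖ • ℓ) (F' u) + ‖V‖ * c - inner ℝ V (e u - e (B t.2.1)) =
        ‖V‖ * (ℓ (F' u) + c - inner ℝ (‖V‖⁻¹ • V) (e u - e (B t.2.1))) := by
      rw [inner_smul_left]
      simp only [map_inv₀, conj_trivial]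
      rw [show (‖V‖ • ℓ) (F' u) = ‖V‖ * ℓ (F' u) from rfl]
      field_simp
    rw [e1, abs_mul, abs_of_pos hVn]
    calc ‖V‖ * |ℓ (F' u) + c - inner ℝ (‖V‖⁻¹ • V) (e u - e (B t.2.1))| ≤ ‖V‖ * (η * t.1) :=
          mul_le_mul_of_nonneg_left h4 hVn.le
      _ = η * t.1 * ‖V‖ := by ring
  · rw [norm_smul, norm_norm, mul_assoc, mul_assoc]
    refine mul_le_mul htV.le (h5.trans ?_) (by positivity) (by positivity)
    exact mul_le_mul_of_nonneg_right ((le_abs_self C).trans (by linarith)) hts1.le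

theorem iso_final (d m k : ℕ) (M N T : Type) [TopologicalSpace M] [TopologicalSpace N] [TopologicalSpace T]
    [CompactSpace M] [T2Space M] [ConnectedSpace M] [CompactSpace N] [T2Space N] [CompactSpace T]
    [PreconnectedSpace T]
    [ChartedSpace (E (d + 1)) M] [ChartedSpace (E (d + 1)) N]
    [IsManifold (𝓡 (d + 1)) ∞ M] [IsManifold (𝓡 (d + 1)) ∞ N]
    (e : M → E m) (he : Continuous e) (hei : Injective e) (heI : ∀ x, Imm (n := d + 1) e x)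
    (j : N → E k) (hj : Continuous j) (hji : Injective j) (hjI : ∀ y, Imm (n := d + 1) j y)
    (f : T → M → N) (hf : Continuous fun p : T × M => f p.1 p.2)
    (S : Set ℝ) (hS : ∀ δ : ℝ, 0 < δ → ∃ s ∈ S, 0 < s ∧ s < δ) {η : ℝ} (hη0 : 0 < η)
    (hη : η < vol (d + 1) / (2 * vol d))
    (hrec : ∀ t x, CG e (fun t x => j (f t x)) S η t x)
    (t0 t1 : T) (h0 : ∃ Φ : Diffeomorph (𝓡 (d + 1)) (𝓡 (d + 1)) M N ∞, ∀ x, Φ x = f t0 x)
    (h1 : ∃ Φ : Diffeomorph (𝓡 (d + 1)) (𝓡 (d + 1)) M N ∞, ∀ x, Φ x = f t1 x) :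
    ∃ K : ℝ × M → N, ContMDiff ((𝓘(ℝ, ℝ)).prod (𝓡 (d + 1))) (𝓡 (d + 1)) ∞ K ∧
      (∀ t, ∃ Φ : Diffeomorph (𝓡 (d + 1)) (𝓡 (d + 1)) M N ∞, ∀ x, Φ x = K (t, x)) ∧
      (∀ x, K (0, x) = f t0 x) ∧ ∀ x, K (1, x) = f t1 x := by
  obtain ⟨m0⟩ : Nonempty M := inferInstance
  have : Nonempty N := ⟨f t0 m0⟩
  obtain ⟨η1, hη1, hη1'⟩ := exists_between hη
  have hee : IsEmbedding e := (he.isClosedEmbedding hei).isEmbedding
  have hS' : ∃ᶠ s in 𝓝[>] (0 : ℝ), s ∈ S := by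
    rw [Filter.frequently_iff]
    intro U hU
    obtain ⟨δ, hδ, hδU⟩ := mem_nhdsGT_iff_exists_Ioo_subset.1 hU
    obtain ⟨s, hs, hs0, hsδ⟩ := hS δ hδ
    exact ⟨s, hδU ⟨hs0, hsδ⟩, hs⟩
  have hLD : ∀ t', (∃ Φ : Diffeomorph (𝓡 (d + 1)) (𝓡 (d + 1)) M N ∞, ∀ x, Φ x = f t' x) → ∀ x, LD (d + 1) (f t') x := by
    rintro t' ⟨Φ, hΦ⟩ x
    have e1 : f t' = Φ := funext fun x => (hΦ x).symm
    rw [e1]
    exact Φ.isLocalDiffeomorph x
  obtain ⟨K, k1, k2, k3, k4⟩ := iso_main d m k M N T e he hei heI j hj hji hjI f hf S hS' hη0 hη1 hη1'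
    (fun t x => TG_of_CG hee heI hη0.le (hrec t x)) t0 t1 (hLD t0 h0) (hLD t1 h1)
  refine ⟨K, k1, fun t => bij_of_LDIso k1.continuous k2 ?_ t, k3, k4⟩
  obtain ⟨Φ, hΦ⟩ := h0
  have e1 : (fun x => K (0, x)) = Φ := funext fun x => by rw [k3, hΦ]
  rw [e1]
  exact Φ.bijective

end Pool.Agent.H33.PI
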