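import Pool.Agent.H33.NA.Transfer
import Pool.Agent.H33.PI.Fin

/-!
# Paths of maps with nearly antipodal images of antipodal points of small spheres are coarsely affine
-/

set_option autoImplicit false

open Set Filter Topology Metric Function
open scoped Manifold ContDiff

noncomputable section

namespace Pool.Agent.H33.PI

open Pool.Agent.H33.NC
open Pool.Agent.H33.NA
open Pool.Agent.Y522 (LD)
open Pool.Agent.H865_small (Imm exists_iso iso_norm exists_chartB imm_smooth)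

variable {n m k : ℕ} {X Y T : Type} [TopologicalSpace X] [ChartedSpace (E n) X] [TopologicalSpace Y]
  [ChartedSpace (E n) Y] [TopologicalSpace T]

/-- near `(t0, x)`, for small equilateral triangles with sides about `s ∈ S` the ratios of the sides of the images are
less than `K`, and the images of nearly opposite points on the sphere of radius `s` are nearly opposite -/
def MidP (e : X → E m) (F : T → X → E k) (S : Set ℝ) (K δ : ℝ) (t0 : T) (x : X) : Prop :=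
  ∃ W ∈ 𝓝 t0, ∃ U ∈ 𝓝 x, ∃ r : ℝ, 0 < r ∧ ∃ τ : ℝ, 0 < τ ∧ ∀ t ∈ W, ∀ s ∈ S, 0 < s → s < r →
    ∀ u ∈ U, ∀ v ∈ U, ∀ w ∈ U,
    |‖e u - e v‖ - s| ≤ τ * s → |‖e u - e w‖ - s| ≤ τ * s →
      (|‖e v - e w‖ - s| ≤ τ * s → ‖F t u - F t v‖ < K * ‖F t u - F t w‖) ∧
      (|‖e v - e w‖ - 2 * s| ≤ τ * s → ‖F t v + F t w - (2 : ℝ) • F t u‖ ≤ δ * ‖F t u - F t v‖)

theorem cg_of_mid (n : ℕ) (hn : 3 ≤ n) {K : ℝ} (hK : 1 ≤ K) {η : ℝ} (hη : 0 < η) : ∃ δ : ℝ, 0 < δ ∧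
    ∀ (m k : ℕ) (X Y T : Type) [TopologicalSpace X] [ChartedSpace (E n) X] [TopologicalSpace Y] [ChartedSpace (E n) Y]
      [TopologicalSpace T] [LocallyCompactSpace T]
      [IsManifold (𝓡 n) ∞ X] [IsManifold (𝓡 n) ∞ Y] (e : X → E m) (j : Y → E k) (g0 : T → X → Y) (t0 : T) (x : X)
      (S : Set ℝ), Imm (n := n) e x → Imm (n := n) j (g0 t0 x) → (Continuous fun p : T × X => g0 p.1 p.2) →
      Continuous j → MidP e (fun t y => j (g0 t y)) S K δ t0 x →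
      CG e (fun t y => j (g0 t y)) S η t0 x := by
  obtain ⟨K2, hK2⟩ : ∃ K2 : ℝ, K2 = (3 * K) ^ 3 := ⟨_, rfl⟩
  have hK21 : 1 ≤ K2 := by
    rw [hK2]
    exact one_le_pow₀ (by linarith)
  have hK20 : 0 < K2 := by linarith
  obtain ⟨ε, hε⟩ : ∃ ε : ℝ, ε = η / (4 * K2) := ⟨_, rfl⟩
  have hε0 : 0 < ε := by rw [hε]; positivity
  have hεη : K2 * ε = η / 4 := by rw [hε]; field_simp
  obtain ⟨δ0, hδ0, R, hR, hnear⟩ := near_affine n (by omega) hK21 hε0 2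
  refine ⟨δ0 / 4, by positivity, ?_⟩
  intro m k X Y T _ _ _ _ _ _ _ _ e j g0 t0 x S he hj hg hjc hmid
  obtain ⟨W0, hW0, U0, hU0, r0, hr0, τ, hτ, hrd0⟩ := hmid
  obtain ⟨D, hD⟩ : ∃ D : ℝ, D = K2 * (2 * K2 + ε) + 2 := ⟨_, rfl⟩
  have hD0 : 0 < D := by rw [hD]; positivity
  obtain ⟨θ, hθd⟩ : ∃ θ : ℝ, θ = min (min (τ / 2) (1 / 2)) (min (δ0 / (2 * (1 + K2))) (η / (2 * D))) := ⟨_, rfl⟩
  have hθ : 0 < θ := by rw [hθd]; positivity
  have hθτ : θ * 2 ≤ τ := by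
    have : θ ≤ τ / 2 := by rw [hθd]; exact (min_le_left _ _).trans (min_le_left _ _)
    linarith
  have hθh : θ ≤ 1 / 2 := by rw [hθd]; exact (min_le_left _ _).trans (min_le_right _ _)
  have hθδ : θ * (1 + K2) ≤ δ0 / 2 := by
    have : θ ≤ δ0 / (2 * (1 + K2)) := by rw [hθd]; exact (min_le_right _ _).trans (min_le_left _ _)
    rw [le_div_iff₀ (by positivity)] at this
    linarith
  have hθη : θ * D ≤ η / 2 := by
    have : θ ≤ η / (2 * D) := by rw [hθd]; exact (min_le_right _ _).trans (min_le_right _ _)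
    rw [le_div_iff₀ (by positivity)] at this
    linarith
  obtain ⟨A, hA0, hA, Je, hJe, t1, ht1, hAe⟩ := exists_param' (n := n) he hθ
  obtain ⟨B, hB0, hB, Jj, hJj, t2, ht2, hBj⟩ := exists_param' (n := n) hj hθ
  -- the maps in the parametrizations
  have hev : ∀ᶠ q : T × E n in 𝓝 (t0, 0), (q.1 ∈ W0 ∧ A q.2 ∈ U0) ∧ g0 q.1 (A q.2) ∈ B '' ball 0 t2 := by
    have hq1 : Tendsto (fun q : T × E n => q.1) (𝓝 (t0, 0)) (𝓝 t0) := continuous_fst.continuousAt.tendsto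
    have hq2 : Tendsto (fun q : T × E n => q.2) (𝓝 (t0, 0)) (𝓝 0) := continuous_snd.continuousAt.tendsto
    have h1 : Tendsto (fun q : T × E n => A q.2) (𝓝 (t0, 0)) (𝓝 x) := by
      have := (hA 0).continuousAt.tendsto
      rw [hA0] at this
      exact this.comp hq2
    have h2 : B '' ball 0 t2 ∈ 𝓝 (g0 t0 x) := by
      have := (hB 0).image_mem_nhds (ball_mem_nhds (0 : E n) ht2)
      rwa [hB0] at this
    have h3 : Tendsto (fun q : T × E n => g0 q.1 (A q.2)) (𝓝 (t0, 0)) (𝓝 (g0 t0 x)) :=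
      (hg.tendsto (t0, x)).comp (hq1.prodMk_nhds h1)
    exact ((hq1.eventually hW0).and (h1.eventually hU0)).and (h3.eventually h2)
  rw [nhds_prod_eq] at hev
  obtain ⟨pa, hpa, pb, hpb, hpab⟩ := Filter.eventually_prod_iff.1 hev
  obtain ⟨W, hW, hWpa, hWc⟩ := local_compact_nhds (show {t | pa t} ∈ 𝓝 t0 from hpa)
  obtain ⟨ρ', hρ', hρ'2⟩ := Metric.eventually_nhds_iff.1 hpb
  obtain ⟨ρ, hρd⟩ : ∃ ρ : ℝ, ρ = min ρ' t1 := ⟨_, rfl⟩
  have hρ : 0 < ρ := by rw [hρd]; exact lt_min hρ' ht1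
  have hin0 : ∀ t ∈ W, ∀ z : E n, ‖z‖ < ρ → (t ∈ W0 ∧ A z ∈ U0) ∧ ∃ y : E n, ‖y‖ < t2 ∧ B y = g0 t (A z) := by
    intro t ht z hz
    have h0 := hρ'2 (y := z) (by rw [dist_zero_right]; exact hz.trans_le (by rw [hρd]; exact min_le_left _ _))
    have h1 := hpab (hWpa ht) h0
    obtain ⟨h2, y, hy, hy2⟩ := h1
    exact ⟨h2, y, mem_ball_zero_iff.1 hy, hy2⟩
  have hAe0 : ∀ z z' : E n, ‖z‖ < ρ → ‖z'‖ < ρ → ‖e (A z) - e (A z') - Je (z - z')‖ ≤ θ * ‖z - z'‖ := by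
    intro z z' hz hz'
    refine hAe z z' (hz.trans_le ?_) (hz'.trans_le ?_) <;> rw [hρd] <;> exact min_le_right _ _
  have hAe' : ∀ z z' : E n, ‖z‖ < ρ → ‖z'‖ < ρ → |‖e (A z) - e (A z')‖ - ‖z - z'‖| ≤ θ * ‖z - z'‖ := by
    intro z z' hz hz'
    have h1 := hAe0 z z' hz hz'
    have h2 := abs_norm_sub_norm_le (e (A z) - e (A z')) (Je (z - z'))
    rw [hJe] at h2
    exact h2.trans h1
  obtain ⟨r, hrdef⟩ : ∃ r : ℝ, r = min r0 (ρ / (4 * (R + 2))) := ⟨_, rfl⟩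
  have hr : 0 < r := by rw [hrdef]; exact lt_min hr0 (by positivity)
  have hsρ0 : ∀ s : ℝ, 0 < s → s < r → s < r0 ∧ s * (R + 1) ≤ ρ / 4 := by
    intro s hs0 hsr
    rw [hrdef] at hsr
    refine ⟨hsr.trans_le (min_le_left _ _), ?_⟩
    have h1 : s ≤ ρ / (4 * (R + 2)) := (hsr.trans_le (min_le_right _ _)).le
    have h2 : s * (4 * (R + 2)) ≤ ρ := by rwa [le_div_iff₀ (by positivity)] at h1
    nlinarith
  have hball0 : ∀ (s : ℝ) (ζ p : E n), 0 < s → s < r → ‖ζ‖ ≤ ρ / 2 → ‖p‖ ≤ R + 1 → ‖ζ + s • p‖ < ρ := by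
    intro s ζ p hs0 hsr hζ hp
    have h1 : ‖ζ + s • p‖ ≤ ‖ζ‖ + s * (R + 1) := by
      refine (norm_add_le _ _).trans ?_
      rw [norm_smul, Real.norm_eq_abs, abs_of_pos hs0]
      gcongr
    have h2 := (hsρ0 s hs0 hsr).2
    linarith
  have hdist0 : ∀ (s : ℝ) (ζ : E n), 0 < s → s < r → ‖ζ‖ ≤ ρ / 2 → ∀ (a : ℝ) (p q : E n), 0 < a → a ≤ 2 →
      ‖p‖ ≤ R + 1 → ‖q‖ ≤ R + 1 → ‖p - q‖ = a → |‖e (A (ζ + s • p)) - e (A (ζ + s • q))‖ - a * s| ≤ τ * s := by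
    intro s ζ hs0 hsr hζ a p q ha ha2 hp hq hpq
    have h1 := hAe' _ _ (hball0 s ζ p hs0 hsr hζ hp) (hball0 s ζ q hs0 hsr hζ hq)
    have h2 : ‖ζ + s • p - (ζ + s • q)‖ = a * s := by
      rw [add_sub_add_left_eq_sub, ← smul_sub, norm_smul, hpq, Real.norm_eq_abs, abs_of_pos hs0, mul_comm]
    rw [h2] at h1
    refine h1.trans ?_
    calc θ * (a * s) ≤ θ * (2 * s) := by gcongr
      _ = (θ * 2) * s := by ring
      _ ≤ τ * s := by gcongr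
  -- the images of close points are not too close
  have hnd : ∀ s ∈ S, 0 < s → s < r → ∀ t ∈ W, ∀ ζ : E n, ‖ζ‖ ≤ ρ / 2 → ∀ p : E n, ‖p‖ = 1 →
      0 < ‖j (g0 t (A (ζ + s • p))) - j (g0 t (A ζ))‖ := by
    intro s hs hs0 hsr t ht ζ hζ p hp
    obtain ⟨c, -, hc, -, hpc, -, -⟩ := sphere_chain hn (a := p) (b := p) hp hp
    have hp' : ‖p‖ ≤ R + 1 := by linarith
    have hc' : ‖c‖ ≤ R + 1 := by linarith
    have h0 : ‖(0 : E n)‖ ≤ R + 1 := by rw [norm_zero]; linarith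
    have d1 := hdist0 s ζ hs0 hsr hζ 1 0 c one_pos (by norm_num) h0 hc' (by rw [zero_sub, norm_neg, hc])
    have d2 := hdist0 s ζ hs0 hsr hζ 1 0 p one_pos (by norm_num) h0 hp' (by rw [zero_sub, norm_neg, hp])
    have d3 := hdist0 s ζ hs0 hsr hζ 1 c p one_pos (by norm_num) hc' hp' (by rw [norm_sub_rev, hpc])
    rw [one_mul] at d1 d2 d3
    have h1 := (hrd0 t (hin0 t ht _ (hball0 s ζ 0 hs0 hsr hζ h0)).1.1 s hs hs0 (hsρ0 s hs0 hsr).1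
      _ (hin0 t ht _ (hball0 s ζ 0 hs0 hsr hζ h0)).1.2 _ (hin0 t ht _ (hball0 s ζ c hs0 hsr hζ hc')).1.2
      _ (hin0 t ht _ (hball0 s ζ p hs0 hsr hζ hp')).1.2 d1 d2).1 d3
    rw [smul_zero, add_zero] at h1
    have h2 : 0 < K * ‖j (g0 t (A ζ)) - j (g0 t (A (ζ + s • p)))‖ := (norm_nonneg _).trans_lt h1
    rw [norm_sub_rev]
    exact (pos_iff_pos_of_mul_pos h2).1 (by linarith)
  have hΛ0 : ∀ s : ℝ, ∃ Λ : ℝ, 0 ≤ Λ ∧ (s ∈ S → 0 < s → s < r → ∀ t ∈ W, ∀ ζ : E n, ‖ζ‖ ≤ ρ / 2 → ∀ p : E n, ‖p‖ = 1 →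
      s ≤ Λ * ‖j (g0 t (A (ζ + s • p))) - j (g0 t (A ζ))‖) := by
    intro s
    by_cases hs : s ∈ S ∧ 0 < s ∧ s < r
    · obtain ⟨hs, hs0, hsr⟩ := hs
      have hAc : Continuous A := continuous_iff_continuousAt.2 fun z => (hA z).continuousAt
      have hcont : Continuous fun q : T × E n × E n => ‖j (g0 q.1 (A (q.2.1 + s • q.2.2))) - j (g0 q.1 (A q.2.1))‖ := by
        have c1 : Continuous fun q : T × E n × E n => A (q.2.1 + s • q.2.2) := hAc.comp (by fun_prop)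
        have c2 : Continuous fun q : T × E n × E n => A q.2.1 := hAc.comp (by fun_prop)
        have c3 : Continuous fun q : T × E n × E n => g0 q.1 (A (q.2.1 + s • q.2.2)) :=
          hg.comp (continuous_fst.prodMk c1)
        have c4 : Continuous fun q : T × E n × E n => g0 q.1 (A q.2.1) := hg.comp (continuous_fst.prodMk c2)
        exact ((hjc.comp c3).sub (hjc.comp c4)).norm
      have hcomp : IsCompact (W ×ˢ (closedBall (0 : E n) (ρ / 2) ×ˢ sphere (0 : E n) 1)) :=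
        hWc.prod ((isCompact_closedBall _ _).prod (isCompact_sphere _ _))
      have hev : ∀ q ∈ W ×ˢ (closedBall (0 : E n) (ρ / 2) ×ˢ sphere (0 : E n) 1),
          0 < ‖j (g0 q.1 (A (q.2.1 + s • q.2.2))) - j (g0 q.1 (A q.2.1))‖ := by
        rintro ⟨t, ζ, p⟩ ⟨ht, hζ, hp⟩
        exact hnd s hs hs0 hsr t ht ζ (by simpa using hζ) p (by simpa using hp)
      rcases (W ×ˢ (closedBall (0 : E n) (ρ / 2) ×ˢ sphere (0 : E n) 1)).eq_empty_or_nonempty with he0 | hne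
      · refine ⟨0, le_rfl, fun _ _ _ t ht ζ hζ p hp => ?_⟩
        have : (t, ζ, p) ∈ W ×ˢ (closedBall (0 : E n) (ρ / 2) ×ˢ sphere (0 : E n) 1) :=
          ⟨ht, by simpa using hζ, by simpa using hp⟩
        rw [he0] at this
        exact absurd this (notMem_empty _)
      · obtain ⟨q, hq, hqm⟩ := hcomp.exists_isMinOn hne hcont.continuousOn
        have hc := hev q hq
        refine ⟨s / ‖j (g0 q.1 (A (q.2.1 + s • q.2.2))) - j (g0 q.1 (A q.2.1))‖, by positivity, ?_⟩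
        intro _ _ _ t ht ζ hζ p hp
        have h1 := hqm (show (t, ζ, p) ∈ W ×ˢ (closedBall (0 : E n) (ρ / 2) ×ˢ sphere (0 : E n) 1) from
          ⟨ht, by simpa using hζ, by simpa using hp⟩)
        have h2 : ‖j (g0 q.1 (A (q.2.1 + s • q.2.2))) - j (g0 q.1 (A q.2.1))‖ ≤
          ‖j (g0 t (A (ζ + s • p))) - j (g0 t (A ζ))‖ := h1
        rw [div_mul_eq_mul_div, le_div_iff₀ hc]
        exact mul_le_mul_of_nonneg_left h2 hs0.le
    · exact ⟨0, le_rfl, fun h1 h2 h3 => absurd ⟨h1, h2, h3⟩ hs⟩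
  choose Λ hΛ hΛ1 using hΛ0
  refine ⟨W, hW, A '' ball 0 (ρ / 2), ?_, r, hr, 2 * K2 * (2 * K2 + ε), fun s => K2 * (2 * Λ s * (K2 + ε)), ?_⟩
  · have := (hA 0).image_mem_nhds (ball_mem_nhds (0 : E n) (show 0 < ρ / 2 by positivity))
    rwa [hA0] at this
  intro t ht
  obtain ⟨g, hgd⟩ : ∃ g : X → Y, g = g0 t := ⟨_, rfl⟩
  have hin : ∀ z : E n, ‖z‖ < ρ → A z ∈ U0 ∧ ∃ y : E n, ‖y‖ < t2 ∧ B y = g (A z) := by
    intro z hz
    obtain ⟨⟨-, h1⟩, h2⟩ := hin0 t ht z hz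
    rw [hgd]
    exact ⟨h1, h2⟩
  have htW0 : t ∈ W0 := (hin0 t ht 0 (by rw [norm_zero]; exact hρ)).1.1
  have hex : ∀ z : E n, ∃ y : E n, ‖z‖ < ρ → ‖y‖ < t2 ∧ B y = g (A z) := by
    intro z
    by_cases hz : ‖z‖ < ρ
    · obtain ⟨y, hy⟩ := (hin z hz).2
      exact ⟨y, fun _ => hy⟩
    · exact ⟨0, fun h => absurd h hz⟩
  choose h hh using hex
  have hfh0 : ∀ z z' : E n, ‖z‖ < ρ → ‖z'‖ < ρ →
      ‖j (g (A z)) - j (g (A z')) - Jj (h z - h z')‖ ≤ θ * ‖h z - h z'‖ := by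
    intro z z' hz hz'
    obtain ⟨h1, h2⟩ := hh z hz
    obtain ⟨h3, h4⟩ := hh z' hz'
    rw [← h2, ← h4]
    exact hBj _ _ h1 h3
  have hfh : ∀ z z' : E n, ‖z‖ < ρ → ‖z'‖ < ρ →
      |‖j (g (A z)) - j (g (A z'))‖ - ‖h z - h z'‖| ≤ θ * ‖h z - h z'‖ := by
    intro z z' hz hz'
    have h1 := hfh0 z z' hz hz'
    have h2 := abs_norm_sub_norm_le (j (g (A z)) - j (g (A z'))) (Jj (h z - h z'))
    rw [hJj] at h2
    exact h2.trans h1
  have hrd := hrd0 t htW0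
  simp only [← hgd] at hrd ⊢
  rintro y ⟨ζ, hζ, rfl⟩ s hs hs0 hsr v hv
  rw [mem_ball_zero_iff] at hζ
  have hsr0 : s < r0 := (hsρ0 s hs0 hsr).1
  have hsρ : s * (R + 1) ≤ ρ / 4 := (hsρ0 s hs0 hsr).2
  have hball : ∀ p : E n, ‖p‖ ≤ R + 1 → ‖ζ + s • p‖ < ρ := fun p hp => hball0 s ζ p hs0 hsr hζ.le hp
  have hdist := hdist0 s ζ hs0 hsr hζ.le
  have hdist1 : ∀ p q : E n, ‖p‖ ≤ R + 1 → ‖q‖ ≤ R + 1 → ‖p - q‖ = 1 →
      |‖e (A (ζ + s • p)) - e (A (ζ + s • q))‖ - s| ≤ τ * s := by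
    intro p q hp hq hpq
    have h1 := hdist 1 p q one_pos (by norm_num) hp hq hpq
    rwa [one_mul] at h1
  have hQ3 : ∀ u v w : E n, ‖u‖ ≤ R + 1 → ‖v‖ ≤ R + 1 → ‖w‖ ≤ R + 1 → ‖u - v‖ = 1 → ‖u - w‖ = 1 → ‖v - w‖ = 1 →
      ‖h (ζ + s • u) - h (ζ + s • v)‖ < 3 * K * ‖h (ζ + s • u) - h (ζ + s • w)‖ := by
    intro u v w hu hv hw huv huw hvw
    have h1 := (hrd s hs hs0 hsr0 _ (hin _ (hball u hu)).1 _ (hin _ (hball v hv)).1 _ (hin _ (hball w hw)).1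
      (hdist1 u v hu hv huv) (hdist1 u w hu hw huw)).1 (hdist1 v w hv hw hvw)
    have h2 := (abs_le.1 (hfh _ _ (hball u hu) (hball v hv))).1
    have h3 := (abs_le.1 (hfh _ _ (hball u hu) (hball w hw))).2
    obtain ⟨a, ha⟩ : ∃ a : ℝ, a = ‖h (ζ + s • u) - h (ζ + s • v)‖ := ⟨_, rfl⟩
    obtain ⟨b, hb⟩ : ∃ b : ℝ, b = ‖h (ζ + s • u) - h (ζ + s • w)‖ := ⟨_, rfl⟩
    rw [← ha] at h2 ⊢
    rw [← hb] at h3 ⊢
    have hb0 : 0 ≤ b := by rw [hb]; exact norm_nonneg _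
    have ha0 : 0 ≤ a := by rw [ha]; exact norm_nonneg _
    have h4 : K * ‖j (g (A (ζ + s • u))) - j (g (A (ζ + s • w)))‖ ≤ K * ((1 + θ) * b) := by
      refine mul_le_mul_of_nonneg_left ?_ (by linarith)
      linarith
    have h5 : (1 - θ) * a < K * ((1 + θ) * b) := by linarith
    have h6 : (1 / 2) * a ≤ (1 - θ) * a := mul_le_mul_of_nonneg_right (by linarith) ha0
    have h7 : K * ((1 + θ) * b) ≤ K * ((3 / 2) * b) := by
      refine mul_le_mul_of_nonneg_left (mul_le_mul_of_nonneg_right (by linarith) hb0) (by linarith)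
    linarith
  have hQ : ∀ u v w : E n, ‖u‖ ≤ R → ‖v‖ ≤ R → ‖w‖ ≤ R → ‖u - v‖ = 1 → ‖u - w‖ = 1 →
      ‖h (ζ + s • u) - h (ζ + s • v)‖ < K2 * ‖h (ζ + s • u) - h (ζ + s • w)‖ := by
    intro u v w hu hv hw huv huw
    rw [hK2]
    exact ecc_chain hn (F := fun p => h (ζ + s • p)) (by linarith) hQ3 hu hv hw huv huw
  obtain ⟨κ, L, hκ, hL, hκ2⟩ := hnear (fun p => h (ζ + s • p)) hQ (by
    intro u v w hu hv hw huv huw hvw
    have hu' : ‖u‖ ≤ R + 1 := by linarith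
    have hv' : ‖v‖ ≤ R + 1 := by linarith
    have hw' : ‖w‖ ≤ R + 1 := by linarith
    have h1 := (hrd s hs hs0 hsr0 _ (hin _ (hball u hu')).1 _ (hin _ (hball v hv')).1 _ (hin _ (hball w hw')).1
      (hdist1 u v hu' hv' huv) (hdist1 u w hu' hw' huw)).2 (hdist 2 v w (by norm_num) le_rfl hv' hw' hvw)
    have h2 := hfh0 _ _ (hball v hv') (hball u hu')
    have h3 := hfh0 _ _ (hball w hw') (hball u hu')
    have h4 := (abs_le.1 (hfh _ _ (hball u hu') (hball v hv'))).2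
    have h5 := (hQ u w v hu hw hv huw huv).le
    obtain ⟨a, ha⟩ : ∃ a : ℝ, a = ‖h (ζ + s • u) - h (ζ + s • v)‖ := ⟨_, rfl⟩
    rw [norm_sub_rev (h (ζ + s • v)), ← ha] at h2
    rw [norm_sub_rev (h (ζ + s • w))] at h3
    rw [← ha] at h4 h5 ⊢
    have ha0 : 0 ≤ a := by rw [ha]; exact norm_nonneg _
    have h6 : ‖h (ζ + s • v) + h (ζ + s • w) - (2 : ℝ) • h (ζ + s • u)‖ =
        ‖Jj (h (ζ + s • v) + h (ζ + s • w) - (2 : ℝ) • h (ζ + s • u))‖ := (hJj _).symm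
    have h7 : Jj (h (ζ + s • v) + h (ζ + s • w) - (2 : ℝ) • h (ζ + s • u)) =
        (j (g (A (ζ + s • v))) + j (g (A (ζ + s • w))) - (2 : ℝ) • j (g (A (ζ + s • u)))) -
        (j (g (A (ζ + s • v))) - j (g (A (ζ + s • u))) - Jj (h (ζ + s • v) - h (ζ + s • u))) -
        (j (g (A (ζ + s • w))) - j (g (A (ζ + s • u))) - Jj (h (ζ + s • w) - h (ζ + s • u))) := by
      rw [map_sub, map_sub, map_sub, map_add, map_smul]
      module
    rw [h6, h7]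
    refine (norm_sub_le _ _).trans ?_
    have h8 := norm_sub_le (j (g (A (ζ + s • v))) + j (g (A (ζ + s • w))) - (2 : ℝ) • j (g (A (ζ + s • u))))
      (j (g (A (ζ + s • v))) - j (g (A (ζ + s • u))) - Jj (h (ζ + s • v) - h (ζ + s • u)))
    have h9 : θ * ‖h (ζ + s • u) - h (ζ + s • w)‖ ≤ θ * (K2 * a) := mul_le_mul_of_nonneg_left h5 hθ.le
    have h10 : δ0 / 4 * ‖j (g (A (ζ + s • u))) - j (g (A (ζ + s • v)))‖ ≤ δ0 / 4 * (2 * a) := by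
      refine mul_le_mul_of_nonneg_left ?_ (by positivity)
      nlinarith
    have h11 : (θ * (1 + K2)) * a ≤ δ0 / 2 * a := mul_le_mul_of_nonneg_right hθδ ha0
    nlinarith)
  -- the inverse of the linear map
  have hLi : Injective (L : E n →ₗ[ℝ] E n) := by
    rw [injective_iff_map_eq_zero]
    intro z hz
    have h1 := (hL z).1
    have h2 : L z = 0 := hz
    rw [h2, norm_zero, mul_zero] at h1
    exact norm_le_zero_iff.1 h1
  obtain ⟨L', hL'⟩ : ∃ L' : E n →L[ℝ] E n, ∀ z, L' (L z) = z ∧ L (L' z) = z := by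
    let Q := (LinearEquiv.ofInjectiveEndo (L : E n →ₗ[ℝ] E n) hLi).toContinuousLinearEquiv
    have hQ1 : ∀ z, Q z = L z := fun z => rfl
    refine ⟨(Q.symm : E n →L[ℝ] E n), fun z => ⟨?_, ?_⟩⟩
    · show Q.symm (L z) = z
      rw [← hQ1, ContinuousLinearEquiv.symm_apply_apply]
    · show L (Q.symm z) = z
      rw [← hQ1, ContinuousLinearEquiv.apply_symm_apply]
  have hL'n : ∀ z, ‖L' z‖ ≤ K2 * ‖z‖ := by
    intro z
    have h1 := (hL (L' z)).1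
    rwa [(hL' z).2] at h1
  obtain ⟨a, ha⟩ : ∃ a : E n, a = ContinuousLinearMap.adjoint Je v := ⟨_, rfl⟩
  have han : ‖a‖ ≤ 1 := by rw [ha, ← hv]; exact adj_norm hJe v
  obtain ⟨ℓ, hℓ⟩ : ∃ ℓ : E k →L[ℝ] ℝ, ∀ ξ, ℓ ξ = κ * s * inner ℝ a (L' (ContinuousLinearMap.adjoint Jj ξ)) := by
    refine ⟨(κ * s) • ((innerSL ℝ a).comp (L'.comp (ContinuousLinearMap.adjoint Jj))), fun ξ => ?_⟩
    simp
  have hℓn : ‖ℓ‖ ≤ κ * s * K2 := by
    have hks : 0 < κ * s := by positivity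
    refine ℓ.opNorm_le_bound (by positivity : (0 : ℝ) ≤ κ * s * K2) fun ξ => ?_
    rw [hℓ, Real.norm_eq_abs, abs_mul, abs_of_pos hks, mul_assoc (κ * s)]
    refine mul_le_mul_of_nonneg_left ?_ (by positivity)
    refine (abs_real_inner_le_norm _ _).trans ?_
    have h1 := hL'n (ContinuousLinearMap.adjoint Jj ξ)
    have h2 := adj_norm hJj ξ
    have h3 : K2 * ‖ContinuousLinearMap.adjoint Jj ξ‖ ≤ K2 * ‖ξ‖ := mul_le_mul_of_nonneg_left h2 hK20.le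
    calc ‖a‖ * ‖L' (ContinuousLinearMap.adjoint Jj ξ)‖ ≤ 1 * ‖L' (ContinuousLinearMap.adjoint Jj ξ)‖ :=
          mul_le_mul_of_nonneg_right han (norm_nonneg _)
      _ ≤ K2 * ‖ξ‖ := by linarith
  refine ⟨ℓ, -ℓ (j (g (A ζ))), ?_, ?_⟩
  · have hn1 : ∃ p : E n, ‖p‖ = 1 := by
      refine ⟨EuclideanSpace.single (⟨0, by omega⟩ : Fin n) 1, ?_⟩
      simp
    obtain ⟨p, hp⟩ := hn1
    have hp' : ‖p‖ ≤ R + 1 := by linarith
    have h1 := hΛ1 s hs hs0 hsr t ht ζ hζ.le p hp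
    simp only [← hgd] at h1
    have h2 := (abs_le.1 (hfh _ _ (hball p hp') (by linarith : ‖ζ‖ < ρ))).2
    have h3 : ‖j (g (A (ζ + s • p))) - j (g (A ζ))‖ ≤ 2 * ‖h (ζ + s • p) - h ζ‖ := by
      have h30 : θ * ‖h (ζ + s • p) - h ζ‖ ≤ 1 / 2 * ‖h (ζ + s • p) - h ζ‖ :=
        mul_le_mul_of_nonneg_right hθh (norm_nonneg _)
      have h31 := norm_nonneg (h (ζ + s • p) - h ζ)
      linarith
    have h4 : κ * ‖h (ζ + s • p) - h ζ‖ ≤ K2 + ε := by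
      have h5 := hκ2 p (by linarith)
      rw [smul_zero, add_zero] at h5
      have h6 : κ * ‖h (ζ + s • p) - h ζ‖ = ‖L p + (κ • (h (ζ + s • p) - h ζ) - L p)‖ := by
        rw [add_sub_cancel, norm_smul, Real.norm_eq_abs, abs_of_pos hκ]
      rw [h6]
      have h7 := norm_add_le (L p) (κ • (h (ζ + s • p) - h ζ) - L p)
      have h8 := (hL p).2
      rw [hp, mul_one] at h8
      linarith
    have h5 : κ * s ≤ 2 * Λ s * (K2 + ε) := by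
      calc κ * s ≤ κ * (Λ s * (2 * ‖h (ζ + s • p) - h ζ‖)) :=
            mul_le_mul_of_nonneg_left (h1.trans (mul_le_mul_of_nonneg_left h3 (hΛ s))) hκ.le
        _ = 2 * Λ s * (κ * ‖h (ζ + s • p) - h ζ‖) := by ring
        _ ≤ 2 * Λ s * (K2 + ε) := mul_le_mul_of_nonneg_left h4 (by have := hΛ s; positivity)
    calc ‖ℓ‖ ≤ κ * s * K2 := hℓn
      _ ≤ 2 * Λ s * (K2 + ε) * K2 := mul_le_mul_of_nonneg_right h5 hK20.le
      _ = _ := by ring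
  rintro u ⟨zu, hzu, rfl⟩ hu
  rw [mem_ball_zero_iff] at hzu
  have hζρ : ‖ζ‖ < ρ := by linarith
  have hzuρ : ‖zu‖ < ρ := by linarith
  have hzu2 : ‖zu - ζ‖ ≤ 2 * s := by
    have h1 := (abs_le.1 (hAe' zu ζ hzuρ hζρ)).1
    nlinarith [norm_nonneg (zu - ζ)]
  obtain ⟨p, hp⟩ : ∃ p : E n, p = s⁻¹ • (zu - ζ) := ⟨_, rfl⟩
  have hpn : ‖p‖ ≤ 2 := by
    rw [hp, norm_smul, Real.norm_eq_abs, abs_of_pos (inv_pos.2 hs0)]
    calc s⁻¹ * ‖zu - ζ‖ ≤ s⁻¹ * (2 * s) := by gcongr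
      _ = 2 := by field_simp
  have hsp : s • p = zu - ζ := by rw [hp, smul_smul, mul_inv_cancel₀ hs0.ne', one_smul]
  have hpz : ζ + s • p = zu := by rw [hsp]; abel
  have h1 := hκ2 p hpn
  rw [hpz, smul_zero, add_zero] at h1
  obtain ⟨ρ2, hρ2⟩ : ∃ ρ2 : E n, ρ2 = κ • (h zu - h ζ) - L p := ⟨_, rfl⟩
  rw [← hρ2] at h1
  obtain ⟨ρ1, hρ1⟩ : ∃ ρ1 : E k, ρ1 = j (g (A zu)) - j (g (A ζ)) - Jj (h zu - h ζ) := ⟨_, rfl⟩
  have h2 := hfh0 zu ζ hzuρ hζρ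
  rw [← hρ1] at h2
  obtain ⟨ρ4, hρ4⟩ : ∃ ρ4 : E m, ρ4 = e (A zu) - e (A ζ) - Je (zu - ζ) := ⟨_, rfl⟩
  have h3 := hAe0 zu ζ hzuρ hζρ
  rw [← hρ4] at h3
  have h4 : κ * ‖h zu - h ζ‖ ≤ 2 * K2 + ε := by
    have h5 : κ * ‖h zu - h ζ‖ = ‖L p + ρ2‖ := by
      rw [hρ2, add_sub_cancel, norm_smul, Real.norm_eq_abs, abs_of_pos hκ]
    rw [h5]
    have h6 := norm_add_le (L p) ρ2
    have h7 := (hL p).2
    have h8 : K2 * ‖p‖ ≤ K2 * 2 := mul_le_mul_of_nonneg_left hpn hK20.le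
    linarith
  have h5 : κ • L' (ContinuousLinearMap.adjoint Jj (j (g (A zu)) - j (g (A ζ)))) =
      p + (L' ρ2 + κ • L' (ContinuousLinearMap.adjoint Jj ρ1)) := by
    have h6 : j (g (A zu)) - j (g (A ζ)) = Jj (h zu - h ζ) + ρ1 := by rw [hρ1]; abel
    have h7 : κ • (h zu - h ζ) = L p + ρ2 := by rw [hρ2]; abel
    rw [h6, map_add, adj_apply hJj, map_add, smul_add, ← map_smul L' κ (h zu - h ζ), h7, map_add, (hL' p).1]
    abel
  obtain ⟨ρ3, hρ3⟩ : ∃ ρ3 : E n, ρ3 = L' ρ2 + κ • L' (ContinuousLinearMap.adjoint Jj ρ1) := ⟨_, rfl⟩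
  rw [← hρ3] at h5
  have h6 : ‖ρ3‖ ≤ K2 * ε + K2 * θ * (2 * K2 + ε) := by
    rw [hρ3]
    refine (norm_add_le _ _).trans (add_le_add ?_ ?_)
    · exact (hL'n ρ2).trans (mul_le_mul_of_nonneg_left h1 hK20.le)
    · rw [norm_smul, Real.norm_eq_abs, abs_of_pos hκ]
      have h7 := hL'n (ContinuousLinearMap.adjoint Jj ρ1)
      have h8 := adj_norm hJj ρ1
      calc κ * ‖L' (ContinuousLinearMap.adjoint Jj ρ1)‖ ≤ κ * (K2 * (θ * ‖h zu - h ζ‖)) := by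
            refine mul_le_mul_of_nonneg_left (h7.trans (mul_le_mul_of_nonneg_left (h8.trans h2) hK20.le)) hκ.le
        _ = K2 * θ * (κ * ‖h zu - h ζ‖) := by ring
        _ ≤ K2 * θ * (2 * K2 + ε) := mul_le_mul_of_nonneg_left h4 (by positivity)
  have hlin : ℓ (j (g (A zu))) + -ℓ (j (g (A ζ))) = inner ℝ v (Je (zu - ζ)) + s * inner ℝ a ρ3 := by
    rw [← sub_eq_add_neg, ← map_sub, hℓ]
    have h7 : κ * s * inner ℝ a (L' (ContinuousLinearMap.adjoint Jj (j (g (A zu)) - j (g (A ζ))))) =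
        s * inner ℝ a (κ • L' (ContinuousLinearMap.adjoint Jj (j (g (A zu)) - j (g (A ζ))))) := by
      rw [real_inner_smul_right]; ring
    rw [h7, h5, inner_add_right, mul_add, ← real_inner_smul_right, hsp, ha,
      ContinuousLinearMap.adjoint_inner_left]
  constructor
  · rw [hlin]
    have h7 : inner ℝ v (e (A zu) - e (A ζ)) = inner ℝ v (Je (zu - ζ)) + inner ℝ v ρ4 := by
      rw [← inner_add_right, hρ4]
      congr 1
      abel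
    rw [h7]
    have h8 : |inner ℝ a ρ3| ≤ K2 * ε + K2 * θ * (2 * K2 + ε) := by
      refine (abs_real_inner_le_norm _ _).trans ?_
      calc ‖a‖ * ‖ρ3‖ ≤ 1 * ‖ρ3‖ := mul_le_mul_of_nonneg_right han (norm_nonneg _)
        _ ≤ _ := by linarith
    have h9 : |inner ℝ v ρ4| ≤ θ * (2 * s) := by
      refine (abs_real_inner_le_norm _ _).trans ?_
      rw [hv, one_mul]
      exact h3.trans (mul_le_mul_of_nonneg_left hzu2 hθ.le)
    have h10 : s * |inner ℝ a ρ3| ≤ s * (K2 * ε + K2 * θ * (2 * K2 + ε)) := mul_le_mul_of_nonneg_left h8 hs0.le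
    have h11 : inner ℝ v (Je (zu - ζ)) + s * inner ℝ a ρ3 - (inner ℝ v (Je (zu - ζ)) + inner ℝ v ρ4) =
        s * inner ℝ a ρ3 - inner ℝ v ρ4 := by ring
    rw [h11]
    have h12 := abs_sub (s * inner ℝ a ρ3) (inner ℝ v ρ4)
    rw [abs_mul, abs_of_pos hs0] at h12
    have h13 : s * (K2 * ε + K2 * θ * (2 * K2 + ε)) + θ * (2 * s) = s * (η / 4 + θ * D) := by
      rw [hD, ← hεη]; ring
    have h14 : s * (η / 4 + θ * D) ≤ η * s := by nlinarith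
    linarith
  · have h7 := (abs_le.1 (hfh zu ζ hzuρ hζρ)).2
    have h8 : ‖j (g (A zu)) - j (g (A ζ))‖ ≤ 2 * ‖h zu - h ζ‖ := by nlinarith [norm_nonneg (h zu - h ζ)]
    calc ‖ℓ‖ * ‖j (g (A zu)) - j (g (A ζ))‖ ≤ κ * s * K2 * (2 * ‖h zu - h ζ‖) :=
          mul_le_mul hℓn h8 (norm_nonneg _) (by positivity)
      _ = 2 * s * K2 * (κ * ‖h zu - h ζ‖) := by ring
      _ ≤ 2 * s * K2 * (2 * K2 + ε) := mul_le_mul_of_nonneg_left h4 (by positivity)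
      _ = 2 * K2 * (2 * K2 + ε) * s := by ring

end Pool.Agent.H33.PI
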